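import Pool.Agent.Lib.Q5dc.Sum2

/-! The closure of the curvilinear triples is closed under direct sums; decomposable triples. -/

namespace Pool.Agent.Lib.Q5dc

open MvPolynomial Matrix

variable {k : Type*} [Field k] {n : Type*} [Fintype n] [DecidableEq n]
  {m : Type*} [Fintype m] [DecidableEq m]

/-- The polynomial `T ↦ F (T ⊕ S)`. -/
noncomputable def fixR (S : Fin 3 → Matrix m m k) (F : MvPolynomial (Fin 3 × (n ⊕ m) × (n ⊕ m)) k) :
    MvPolynomial (Fin 3 × n × n) k :=
  aeval (fun z : Fin 3 × (n ⊕ m) × (n ⊕ m) =>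
    match z.2.1, z.2.2 with
    | Sum.inl x, Sum.inl y => (X (z.1, x, y) : MvPolynomial (Fin 3 × n × n) k)
    | Sum.inr x, Sum.inr y => C (S z.1 x y)
    | _, _ => 0) F

theorem eval_fixR (S : Fin 3 → Matrix m m k) (F : MvPolynomial (Fin 3 × (n ⊕ m) × (n ⊕ m)) k)
    (T : Fin 3 → Matrix n n k) : eval (co T) (fixR S F) = eval (co (dsum T S)) F := by
  have h1 : ((aeval (co T) : MvPolynomial (Fin 3 × n × n) k →ₐ[k] k).comp
      (aeval (fun z : Fin 3 × (n ⊕ m) × (n ⊕ m) =>
    match z.2.1, z.2.2 with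
    | Sum.inl x, Sum.inl y => (X (z.1, x, y) : MvPolynomial (Fin 3 × n × n) k)
    | Sum.inr x, Sum.inr y => C (S z.1 x y)
    | _, _ => 0))) =
      (aeval (co (dsum T S)) : MvPolynomial (Fin 3 × (n ⊕ m) × (n ⊕ m)) k →ₐ[k] k) := by
    apply MvPolynomial.algHom_ext
    rintro ⟨i, x, y⟩
    rcases x with x | x <;> rcases y with y | y <;> simp [co, dsum]
  have h3 := congrArg (fun f => f F) h1
  simp only [AlgHom.comp_apply] at h3
  exact h3

/-- The polynomial `S ↦ F (T ⊕ S)`. -/
noncomputable def fixL (T : Fin 3 → Matrix n n k) (F : MvPolynomial (Fin 3 × (n ⊕ m) × (n ⊕ m)) k) :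
    MvPolynomial (Fin 3 × m × m) k :=
  aeval (fun z : Fin 3 × (n ⊕ m) × (n ⊕ m) =>
    match z.2.1, z.2.2 with
    | Sum.inl x, Sum.inl y => (C (T z.1 x y) : MvPolynomial (Fin 3 × m × m) k)
    | Sum.inr x, Sum.inr y => X (z.1, x, y)
    | _, _ => 0) F

theorem eval_fixL (T : Fin 3 → Matrix n n k) (F : MvPolynomial (Fin 3 × (n ⊕ m) × (n ⊕ m)) k)
    (S : Fin 3 → Matrix m m k) : eval (co S) (fixL T F) = eval (co (dsum T S)) F := by
  have h1 : ((aeval (co S) : MvPolynomial (Fin 3 × m × m) k →ₐ[k] k).comp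
      (aeval (fun z : Fin 3 × (n ⊕ m) × (n ⊕ m) =>
    match z.2.1, z.2.2 with
    | Sum.inl x, Sum.inl y => (C (T z.1 x y) : MvPolynomial (Fin 3 × m × m) k)
    | Sum.inr x, Sum.inr y => X (z.1, x, y)
    | _, _ => 0))) =
      (aeval (co (dsum T S)) : MvPolynomial (Fin 3 × (n ⊕ m) × (n ⊕ m)) k →ₐ[k] k) := by
    apply MvPolynomial.algHom_ext
    rintro ⟨i, x, y⟩
    rcases x with x | x <;> rcases y with y | y <;> simp [co, dsum]
  have h3 := congrArg (fun f => f F) h1
  simp only [AlgHom.comp_apply] at h3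
  exact h3

/-- The closure is closed under direct sums. -/
theorem Cl.sum [Infinite k] [Nonempty n] [Nonempty m] {T : Fin 3 → Matrix n n k}
    {S : Fin 3 → Matrix m m k} (hT : Cl T) (hS : Cl S) : Cl (dsum T S) := by
  intro F hF
  have h1 : ∀ T' : Fin 3 → Matrix n n k, Curv T' → eval (co (dsum T' S)) F = 0 := by
    intro T' hT'
    rw [← eval_fixL]
    refine hS _ fun S' hS' => ?_
    rw [eval_fixL]
    exact curv_sum hT' hS' F hF
  rw [← eval_fixR]
  refine hT _ fun T' hT' => ?_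
  rw [eval_fixR]
  exact h1 T' hT'

/-- A triple with two complementary invariant subspaces is conjugate to a direct sum. -/
theorem exists_split (T : Fin 3 → Matrix n n k) (U W : Submodule k (n → k)) (hUW : IsCompl U W)
    (hU : ∀ i, ∀ u ∈ U, T i *ᵥ u ∈ U) (hW : ∀ i, ∀ u ∈ W, T i *ᵥ u ∈ W) :
    ∃ (φ : Matrix n n k ≃ₐ[k] Matrix (Fin (Module.finrank k U) ⊕ Fin (Module.finrank k W))
        (Fin (Module.finrank k U) ⊕ Fin (Module.finrank k W)) k)
      (A : Fin 3 → Matrix (Fin (Module.finrank k U)) (Fin (Module.finrank k U)) k)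
      (B : Fin 3 → Matrix (Fin (Module.finrank k W)) (Fin (Module.finrank k W)) k),
      Fintype.card n = Module.finrank k U + Module.finrank k W ∧
      (fun i => φ (T i)) = dsum A B := by
  let Bs : Module.Basis (Fin (Module.finrank k U) ⊕ Fin (Module.finrank k W)) k (n → k) :=
    ((Module.finBasis k U).prod (Module.finBasis k W)).map
      (Submodule.prodEquivOfIsCompl U W hUW)
  have hcard : Fintype.card n = Module.finrank k U + Module.finrank k W := by
    have : Fintype.card n =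
        Fintype.card (Fin (Module.finrank k U) ⊕ Fin (Module.finrank k W)) := by
      rw [← Module.finrank_eq_card_basis Bs, Module.finrank_fintype_fun_eq_card]
    rw [this, Fintype.card_sum, Fintype.card_fin, Fintype.card_fin]
  let φ : Matrix n n k ≃ₐ[k] Matrix (Fin (Module.finrank k U) ⊕ Fin (Module.finrank k W))
      (Fin (Module.finrank k U) ⊕ Fin (Module.finrank k W)) k :=
    (Matrix.toLinAlgEquiv').trans (LinearMap.toMatrixAlgEquiv Bs)
  have hφ : ∀ (M : Matrix n n k) x y, φ M x y = Bs.repr (Matrix.toLin' M (Bs y)) x := by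
    intro M x y
    simp only [φ, AlgEquiv.trans_apply]
    rw [LinearMap.toMatrixAlgEquiv_apply]
    rfl
  have hBl : ∀ u, Bs (Sum.inl u) ∈ U := by
    intro u
    simp [Bs]
  have hBr : ∀ u, Bs (Sum.inr u) ∈ W := by
    intro u
    simp [Bs]
  have hrl : ∀ x, x ∈ W → ∀ u, Bs.repr x (Sum.inl u) = 0 := by
    intro x hx u
    simp only [Bs, Module.Basis.map_repr, LinearEquiv.trans_apply, Module.Basis.prod_repr_inl]
    rw [(Submodule.prodEquivOfIsCompl_symm_apply_fst_eq_zero U W hUW).mpr hx]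
    simp
  have hrr : ∀ x, x ∈ U → ∀ u, Bs.repr x (Sum.inr u) = 0 := by
    intro x hx u
    simp only [Bs, Module.Basis.map_repr, LinearEquiv.trans_apply, Module.Basis.prod_repr_inr]
    rw [(Submodule.prodEquivOfIsCompl_symm_apply_snd_eq_zero U W hUW).mpr hx]
    simp
  refine ⟨φ, fun i => (φ (T i)).toBlocks₁₁, fun i => (φ (T i)).toBlocks₂₂, hcard, ?_⟩
  funext i
  ext x y
  rcases y with y | y
  · rcases x with x | x
    · simp [dsum, Matrix.toBlocks₁₁]
    · rw [hφ, hrr _ (by rw [Matrix.toLin'_apply]; exact hU i _ (hBl y))]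
      simp [dsum]
  · rcases x with x | x
    · rw [hφ, hrl _ (by rw [Matrix.toLin'_apply]; exact hW i _ (hBr y))]
      simp [dsum]
    · simp [dsum, Matrix.toBlocks₂₂]

end Pool.Agent.Lib.Q5dc
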