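import Mathlib

/-! Tangent cone lemma: a polynomial vanishing on a set which contains, through one point, a
polynomial curve in every direction, is zero. -/

namespace Pool.Agent.Lib.Q5dc

open MvPolynomial

variable {k : Type*} [Field k] [Infinite k]

/-- Scaling the variables of a homogeneous polynomial. -/
theorem aeval_X_mul {ι : Type*} (H : MvPolynomial ι k) {m : ℕ} (hH : H.IsHomogeneous m)
    (u : ι → Polynomial k) :
    aeval (fun i => Polynomial.X * u i) H = Polynomial.X ^ m * aeval u H := by
  classical
  rw [MvPolynomial.aeval_def, MvPolynomial.aeval_def, MvPolynomial.eval₂_eq,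
    MvPolynomial.eval₂_eq, Finset.mul_sum]
  refine Finset.sum_congr rfl fun d hd => ?_
  have h1 : (∑ i ∈ d.support, d i) = m := by
    have := hH (MvPolynomial.mem_support_iff.mp hd)
    rw [Finsupp.weight_apply] at this
    simpa [Finsupp.sum] using this
  simp only [mul_pow]
  rw [Finset.prod_mul_distrib, Finset.prod_pow_eq_pow_sum, h1]
  ring

theorem eq_zero_of_curves {ι : Type*} [Finite ι] (S : Set (ι → k)) (A : ι → k)
    (hc : ∀ v : ι → k, ∃ u : ι → Polynomial k, (∀ i, (u i).eval 0 = v i) ∧
      {s : k | (fun i => A i + s * (u i).eval s) ∈ S}.Infinite)
    (G : MvPolynomial ι k) (hG : ∀ x ∈ S, eval x G = 0) : G = 0 := by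
  classical
  -- translated polynomial
  set G' : MvPolynomial ι k := aeval (fun i => X i + C (A i)) G with hG'
  have hback : aeval (fun i => X i - C (A i)) G' = G := by
    rw [hG', ← AlgHom.comp_apply]
    conv_rhs => rw [← AlgHom.id_apply (R := k) G]
    congr 1
    apply MvPolynomial.algHom_ext
    intro i
    simp
  suffices h : G' = 0 by rw [← hback, h, map_zero]
  -- all homogeneous components vanish
  have key : ∀ m, homogeneousComponent m G' = 0 := by
    intro m
    induction m using Nat.strong_induction_on with
    | _ m ih =>
      apply MvPolynomial.funext
      intro v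
      rw [map_zero]
      obtain ⟨u, hu, hS⟩ := hc v
      -- the polynomial in `s`
      have hz : aeval (fun i => Polynomial.X * u i) G' = 0 := by
        apply Polynomial.eq_zero_of_infinite_isRoot
        refine hS.mono ?_
        intro s hs
        have h1 := hG _ hs
        simp only [Set.mem_ofPred_eq, Polynomial.IsRoot.def]
        rw [← h1, hG']
        rw [← AlgHom.comp_apply]
        have h2 : Polynomial.eval s ((((aeval fun i => Polynomial.X * u i).comp
            (aeval fun i => X i + C (A i))) : MvPolynomial ι k →ₐ[k] Polynomial k) G) =
            (((Polynomial.aeval s : Polynomial k →ₐ[k] k).comp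
              ((aeval fun i => Polynomial.X * u i).comp (aeval fun i => X i + C (A i))))
              : MvPolynomial ι k →ₐ[k] k) G := by
          rw [AlgHom.comp_apply (Polynomial.aeval s), Polynomial.coe_aeval_eq_eval]
        rw [h2]
        have h3 : (((Polynomial.aeval s : Polynomial k →ₐ[k] k).comp
              ((aeval fun i => Polynomial.X * u i).comp (aeval fun i => X i + C (A i))))
              : MvPolynomial ι k →ₐ[k] k) = aeval (fun i => A i + s * (u i).eval s) := by
          apply MvPolynomial.algHom_ext
          intro i
          simp only [AlgHom.comp_apply, aeval_X, map_add, map_mul, Polynomial.aeval_X,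
            Polynomial.coe_aeval_eq_eval]
          rw [show (aeval fun i => Polynomial.X * u i) (C (A i)) =
            algebraMap k (Polynomial k) (A i) from by
              rw [← MvPolynomial.algebraMap_eq]; exact AlgHom.commutes _ _]
          simp
          ring
        rw [h3]
        rfl
      -- expand in homogeneous components
      by_cases hm : G'.totalDegree < m
      · rw [homogeneousComponent_eq_zero _ _ hm, map_zero]
      have hsum : aeval (fun i => Polynomial.X * u i) G' =
          Polynomial.X ^ m * (∑ i ∈ Finset.range (G'.totalDegree + 1),
            if m ≤ i then Polynomial.X ^ (i - m) * aeval u (homogeneousComponent i G') else 0) := by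
        conv_lhs => rw [← sum_homogeneousComponent G']
        rw [map_sum, Finset.mul_sum]
        refine Finset.sum_congr rfl fun i _ => ?_
        by_cases hi : m ≤ i
        · rw [if_pos hi, aeval_X_mul _ (homogeneousComponent_isHomogeneous i G'), ← mul_assoc,
            ← pow_add]
          congr 2
          omega
        · rw [if_neg hi, ih i (by omega)]
          simp
      rw [hz] at hsum
      have h4 := (mul_eq_zero.mp hsum.symm).resolve_left (pow_ne_zero _ Polynomial.X_ne_zero)
      have h5 := congrArg (Polynomial.eval 0) h4
      rw [Polynomial.eval_finsetSum, Polynomial.eval_zero,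
        Finset.sum_eq_single_of_mem m (by simp; omega)] at h5
      · rw [if_pos le_rfl, Nat.sub_self, pow_zero, one_mul] at h5
        have h6 : Polynomial.eval 0 (aeval u (homogeneousComponent m G')) =
            eval v (homogeneousComponent m G') := by
          have h7 : ((Polynomial.aeval (0 : k) : Polynomial k →ₐ[k] k).comp (aeval u)
              : MvPolynomial ι k →ₐ[k] k) = aeval v := by
            apply MvPolynomial.algHom_ext
            intro i
            simp only [AlgHom.comp_apply, aeval_X, Polynomial.coe_aeval_eq_eval]
            exact hu i
          have h8 := congrArg (fun f => f (homogeneousComponent m G')) h7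
          simp only [AlgHom.comp_apply, Polynomial.coe_aeval_eq_eval] at h8
          exact h8
        rw [← h6]; exact h5
      · intro i _ hne
        by_cases hi : m ≤ i
        · rw [if_pos hi, Polynomial.eval_mul, Polynomial.eval_pow, Polynomial.eval_X,
            zero_pow (by omega), zero_mul]
        · rw [if_neg hi, Polynomial.eval_zero]
  rw [← sum_homogeneousComponent G']
  exact Finset.sum_eq_zero fun i _ => key i

end Pool.Agent.Lib.Q5dc
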