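import Pool.Agent.Lib.Q5dc.Sum

/-! Direct sums of triples in the closure of the curvilinear triples. -/

namespace Pool.Agent.Lib.Q5dc

open Matrix

variable {k : Type*} [Field k] {n : Type*} [Fintype n] [DecidableEq n]
  {m : Type*} [Fintype m] [DecidableEq m]

/-- Conjugation by a pair of inverse rectangular matrices. -/
def rectHom (P : Matrix m n k) (Q : Matrix n m k) (hPQ : P * Q = 1) (hQP : Q * P = 1) :
    Matrix n n k →ₐ[k] Matrix m m k where
  toFun X := P * X * Q
  map_one' := by rw [Matrix.mul_one, hPQ]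
  map_mul' X Y := by
    calc P * (X * Y) * Q = P * X * (1 : Matrix n n k) * Y * Q := by simp [Matrix.mul_assoc]
      _ = P * X * (Q * P) * Y * Q := by rw [hQP]
      _ = P * X * Q * (P * Y * Q) := by simp only [Matrix.mul_assoc]
  map_zero' := by simp
  map_add' X Y := by simp [Matrix.mul_add, Matrix.add_mul]
  commutes' r := by
    rw [Algebra.algebraMap_eq_smul_one, Algebra.algebraMap_eq_smul_one, Matrix.mul_smul,
      Matrix.mul_one, Matrix.smul_mul, hPQ]

theorem rectHom_apply (P : Matrix m n k) (Q : Matrix n m k) (hPQ : P * Q = 1) (hQP : Q * P = 1)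
    (X : Matrix n n k) : rectHom P Q hPQ hQP X = P * X * Q := rfl

theorem rectHom_injective (P : Matrix m n k) (Q : Matrix n m k) (hPQ : P * Q = 1)
    (hQP : Q * P = 1) : Function.Injective (rectHom P Q hPQ hQP) := by
  intro X Y hXY
  have h1 := congrArg (fun Z => Q * Z * P) hXY
  simp only [rectHom_apply] at h1
  calc X = (Q * P) * X * (Q * P) := by simp [hQP]
    _ = Q * (P * X * Q) * P := by simp only [Matrix.mul_assoc]
    _ = Q * (P * Y * Q) * P := h1
    _ = (Q * P) * Y * (Q * P) := by simp only [Matrix.mul_assoc]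
    _ = Y := by simp [hQP]

theorem Cl.rect (P : Matrix m n k) (Q : Matrix n m k) (hPQ : P * Q = 1) (hQP : Q * P = 1)
    (hc : Fintype.card n = Fintype.card m) {T : Fin 3 → Matrix n n k} (h : Cl T) :
    Cl (fun i => P * T i * Q) :=
  Cl.map (rectHom P Q hPQ hQP).toLinearMap
    (fun _ h' => h'.mapHom (rectHom P Q hPQ hQP) (rectHom_injective P Q hPQ hQP) hc) h

/-- Standard form of a regular nilpotent matrix. -/
theorem std_form (N : Matrix n n k) (h1 : N ^ Fintype.card n = 0)
    (h2 : N ^ (Fintype.card n - 1) ≠ 0) (hpos : 1 ≤ Fintype.card n) :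
    ∃ (P : Matrix n (Fin (Fintype.card n)) k) (Q : Matrix (Fin (Fintype.card n)) n k),
      P * Q = 1 ∧ Q * P = 1 ∧ N = P * nsh k (Fintype.card n) * Q := by
  obtain ⟨y, hy⟩ : ∃ y : n, (N ^ (Fintype.card n - 1)) *ᵥ (Pi.single y 1) ≠ 0 := by
    by_contra hcon
    push Not at hcon
    apply h2
    ext x y
    have h3 := congrFun (hcon y) x
    rw [Matrix.mulVec_single_one] at h3
    exact h3
  set e : n → k := Pi.single y 1
  let v : Fin (Fintype.card n) → n → k := fun i => (N ^ (i : ℕ)) *ᵥ e
  have hli : LinearIndependent k v := by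
    rw [Fintype.linearIndependent_iff]
    intro c hc
    have key : ∀ i : ℕ, ∀ h : i < Fintype.card n, c ⟨i, h⟩ = 0 := by
      intro i
      induction i using Nat.strong_induction_on with
      | _ i ih =>
        intro hi
        have h3 := congrArg (fun z => (N ^ (Fintype.card n - 1 - i)) *ᵥ z) hc
        simp only [Matrix.mulVec_sum, Matrix.mulVec_zero, Matrix.mulVec_smul] at h3
        rw [Finset.sum_eq_single (⟨i, hi⟩ : Fin (Fintype.card n))] at h3
        · simp only [v] at h3
          rw [Matrix.mulVec_mulVec, ← pow_add,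
            show Fintype.card n - 1 - i + i = Fintype.card n - 1 by omega] at h3
          rcases smul_eq_zero.mp h3 with h4 | h4
          · exact h4
          · exact absurd h4 hy
        · intro j _ hne
          rcases Nat.lt_or_gt_of_ne (fun h => hne (Fin.ext h) : (j : ℕ) ≠ i) with hlt | hgt
          · rw [show c j = 0 from ih j hlt j.2, zero_smul]
          · simp only [v]
            rw [Matrix.mulVec_mulVec, ← pow_add]
            have h5 : N ^ (Fintype.card n - 1 - i + (j : ℕ)) = 0 := by
              rw [show Fintype.card n - 1 - i + (j : ℕ) = Fintype.card n + ((j : ℕ) - i - 1) by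
                omega, pow_add, h1, zero_mul]
            rw [h5, Matrix.zero_mulVec, smul_zero]
        · intro hn
          exact absurd (Finset.mem_univ _) hn
    intro i
    exact key i i.2
  have hne : Nonempty (Fin (Fintype.card n)) := ⟨⟨0, hpos⟩⟩
  let B : Module.Basis (Fin (Fintype.card n)) k (n → k) :=
    basisOfLinearIndependentOfCardEqFinrank hli (by
      rw [Fintype.card_fin, Module.finrank_fintype_fun_eq_card])
  have hB : ∀ i, B i = v i := by
    intro i
    simp only [B, coe_basisOfLinearIndependentOfCardEqFinrank]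
  have hPQ : (Pi.basisFun k n).toMatrix B * B.toMatrix (Pi.basisFun k n) = 1 :=
    Module.Basis.toMatrix_mul_toMatrix_flip _ _
  have hQP : B.toMatrix (Pi.basisFun k n) * (Pi.basisFun k n).toMatrix B = 1 :=
    Module.Basis.toMatrix_mul_toMatrix_flip _ _
  refine ⟨(Pi.basisFun k n).toMatrix B, B.toMatrix (Pi.basisFun k n), hPQ, hQP, ?_⟩
  have hcol : ∀ x i, (Pi.basisFun k n).toMatrix B x i = v i x := by
    intro x i
    rw [Module.Basis.toMatrix_apply, hB]
    simp
  have h4 : N * (Pi.basisFun k n).toMatrix B =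
      (Pi.basisFun k n).toMatrix B * nsh k (Fintype.card n) := by
    ext x i
    have h5 : (N * (Pi.basisFun k n).toMatrix B) x i = (N *ᵥ v i) x := by
      rw [Matrix.mul_apply, Matrix.mulVec, dotProduct]
      refine Finset.sum_congr rfl fun z _ => ?_
      rw [hcol]
    rw [h5, Matrix.mul_apply]
    simp only [v, Matrix.mulVec_mulVec, ← pow_succ']
    by_cases hi : (i : ℕ) + 1 < Fintype.card n
    · rw [Finset.sum_eq_single (⟨i + 1, hi⟩ : Fin (Fintype.card n))]
      · rw [hcol]
        simp [nsh, v]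
      · intro j _ hne
        simp only [nsh, Matrix.of_apply]
        rw [if_neg, mul_zero]
        intro h
        exact hne (Fin.ext h)
      · intro hn
        exact absurd (Finset.mem_univ _) hn
    · have h6 : N ^ ((i : ℕ) + 1) = 0 := by
        rw [show (i : ℕ) + 1 = Fintype.card n by omega, h1]
      rw [h6, Matrix.zero_mulVec, Finset.sum_eq_zero]
      · rfl
      · intro j _
        simp only [nsh, Matrix.of_apply]
        rw [if_neg, mul_zero]
        omega
  rw [← h4, Matrix.mul_assoc, hPQ, Matrix.mul_one]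

/-- Block diagonal matrices. -/
def bd : (Matrix n n k × Matrix m m k) →ₐ[k] Matrix (n ⊕ m) (n ⊕ m) k where
  toFun X := Matrix.fromBlocks X.1 0 0 X.2
  map_one' := Matrix.fromBlocks_one
  map_mul' X Y := by
    rw [Matrix.fromBlocks_multiply]
    simp
  map_zero' := by
    simp
  map_add' X Y := by
    rw [Matrix.fromBlocks_add]
    simp
  commutes' r := by
    rw [Algebra.algebraMap_eq_smul_one, Algebra.algebraMap_eq_smul_one, ← Matrix.fromBlocks_one,
      Matrix.fromBlocks_smul]
    simp

theorem bd_apply (X : Matrix n n k) (Y : Matrix m m k) :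
    (bd (X, Y) : Matrix (n ⊕ m) (n ⊕ m) k) = Matrix.fromBlocks X 0 0 Y := rfl

theorem aeval_prod (X : Matrix n n k) (Y : Matrix m m k) (p : Polynomial k) :
    Polynomial.aeval (X, Y) p = (Polynomial.aeval X p, Polynomial.aeval Y p) := by
  ext1
  · exact (Polynomial.aeval_algHom_apply (AlgHom.fst k (Matrix n n k) (Matrix m m k)) (X, Y) p).symm
  · exact (Polynomial.aeval_algHom_apply (AlgHom.snd k (Matrix n n k) (Matrix m m k)) (X, Y) p).symm

theorem aeval_zero_mat (p : Polynomial k) (hp : p.coeff 0 = 0) :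
    Polynomial.aeval (0 : Matrix n n k) p = 0 := by
  rw [Polynomial.aeval_def, Polynomial.eval₂_at_zero, hp, map_zero]

theorem aeval_bd_left (X : Matrix n n k) (p : Polynomial k) (hp : p.coeff 0 = 0) :
    Polynomial.aeval (Matrix.fromBlocks X 0 0 (0 : Matrix m m k)) p =
      Matrix.fromBlocks (Polynomial.aeval X p) 0 0 0 := by
  rw [← bd_apply, Polynomial.aeval_algHom_apply, aeval_prod, aeval_zero_mat p hp, bd_apply]

theorem aeval_bd_right (Y : Matrix m m k) (p : Polynomial k) (hp : p.coeff 0 = 0) :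
    Polynomial.aeval (Matrix.fromBlocks (0 : Matrix n n k) 0 0 Y) p =
      Matrix.fromBlocks 0 0 0 (Polynomial.aeval Y p) := by
  rw [← bd_apply, Polynomial.aeval_algHom_apply, aeval_prod, aeval_zero_mat p hp, bd_apply]

/-- The direct sum of two triples. -/
def dsum (T : Fin 3 → Matrix n n k) (S : Fin 3 → Matrix m m k) :
    Fin 3 → Matrix (n ⊕ m) (n ⊕ m) k :=
  fun i => Matrix.fromBlocks (T i) 0 0 (S i)

theorem curv_sum [Infinite k] [Nonempty n] [Nonempty m] {T : Fin 3 → Matrix n n k}
    {S : Fin 3 → Matrix m m k} (hT : Curv T) (hS : Curv S) : Cl (dsum T S) := by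
  obtain ⟨N1, a1, a2, a3⟩ := hT
  obtain ⟨N2, b1, b2, b3⟩ := hS
  choose p hp1 hp2 using a3
  choose q hq1 hq2 using b3
  have hn : 1 ≤ Fintype.card n := Fintype.card_pos
  have hm : 1 ≤ Fintype.card m := Fintype.card_pos
  obtain ⟨P1, Q1, c1, c2, c3⟩ := std_form N1 a1 a2 hn
  obtain ⟨P2, Q2, d1, d2, d3⟩ := std_form N2 b1 b2 hm
  have h1 := cl_axes (k := k) hn hm p q hp1 hq1
  have hPQ : Matrix.fromBlocks P1 0 0 P2 * Matrix.fromBlocks Q1 0 0 Q2 = 1 := by
    rw [Matrix.fromBlocks_multiply]
    simp [c1, d1]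
  have hQP : Matrix.fromBlocks Q1 0 0 Q2 * Matrix.fromBlocks P1 0 0 P2 = 1 := by
    rw [Matrix.fromBlocks_multiply]
    simp [c2, d2]
  have h2 := Cl.rect _ _ hPQ hQP (by simp) h1
  have h3 : (fun i => Matrix.fromBlocks P1 0 0 P2 *
      (Polynomial.aeval (Matrix.fromBlocks (nsh k (Fintype.card n)) 0 0
        (0 : Matrix (Fin (Fintype.card m)) (Fin (Fintype.card m)) k)) (p i) +
      Polynomial.aeval (Matrix.fromBlocks
        (0 : Matrix (Fin (Fintype.card n)) (Fin (Fintype.card n)) k) 0 0
        (nsh k (Fintype.card m))) (q i)) * Matrix.fromBlocks Q1 0 0 Q2) = dsum T S := by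
    funext i
    rw [aeval_bd_left _ _ (hp1 i), aeval_bd_right _ _ (hq1 i), Matrix.fromBlocks_add,
      Matrix.fromBlocks_multiply, Matrix.fromBlocks_multiply]
    have e1 : P1 * Polynomial.aeval (nsh k (Fintype.card n)) (p i) * Q1 = T i := by
      rw [← rectHom_apply P1 Q1 c1 c2, ← Polynomial.aeval_algHom_apply, rectHom_apply, ← c3,
        hp2 i]
    have e2 : P2 * Polynomial.aeval (nsh k (Fintype.card m)) (q i) * Q2 = S i := by
      rw [← rectHom_apply P2 Q2 d1 d2, ← Polynomial.aeval_algHom_apply, rectHom_apply, ← d3,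
        hq2 i]
    simp only [Matrix.mul_zero, Matrix.zero_mul, add_zero, zero_add]
    rw [e1, e2]
    rfl
  rw [h3] at h2
  exact h2

end Pool.Agent.Lib.Q5dc
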