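import Pool.Agent.Lib.Q5dc.Red

/-! Strict form of the closure and passage to triples with generating vectors. -/

namespace Pool.Agent.Lib.Q5dc

open MvPolynomial Matrix

variable {k : Type*} [Field k]

theorem eval_curve {ι : Type*} (c : ι → Polynomial k) (F : MvPolynomial ι k) (s : k) :
    (aeval c F).eval s = eval (fun z => (c z).eval s) F := by
  have h1 : ((Polynomial.aeval s : Polynomial k →ₐ[k] k).comp (aeval c)) =
      (aeval (fun z => (c z).eval s) : MvPolynomial ι k →ₐ[k] k) := by
    apply MvPolynomial.algHom_ext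
    intro z
    simp [Polynomial.coe_aeval_eq_eval]
  have h3 := congrArg (fun f => f F) h1
  simp only [AlgHom.comp_apply, Polynomial.coe_aeval_eq_eval] at h3
  exact h3

/-- Strictly curvilinear triples: commuting nilpotent matrices with a linear combination whose
power of exponent (size minus one) is not zero. -/
def Curv' {n : Type*} [Fintype n] [DecidableEq n] (T : Fin 3 → Matrix n n k) : Prop :=
  (∀ i j, T i * T j = T j * T i) ∧ (∀ i, IsNilpotent (T i)) ∧
    ∃ c : Fin 3 → k, (∑ i, c i • T i) ^ (Fintype.card n - 1) ≠ 0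

theorem pow_aeval {n : Type*} [Fintype n] [DecidableEq n] {N : Matrix n n k}
    (hN : N ^ Fintype.card n = 0) (q : Polynomial k) :
    (Polynomial.aeval N (Polynomial.X * q)) ^ (Fintype.card n - 1) =
      (q.coeff 0) ^ (Fintype.card n - 1) • N ^ (Fintype.card n - 1) := by
  obtain ⟨q', hq'⟩ : ∃ q' : Polynomial k, q ^ (Fintype.card n - 1) =
      Polynomial.X * q' + Polynomial.C ((q.coeff 0) ^ (Fintype.card n - 1)) := by
    refine ⟨(q ^ (Fintype.card n - 1)).divX, ?_⟩
    conv_lhs => rw [← Polynomial.X_mul_divX_add (q ^ (Fintype.card n - 1))]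
    simp [Polynomial.coeff_zero_eq_eval_zero]
  rw [← map_pow, mul_pow, hq', mul_add, map_add, ← mul_assoc, ← pow_succ, map_mul, map_pow,
    map_mul, map_pow, Polynomial.aeval_X, Polynomial.aeval_C]
  have h1 : N ^ (Fintype.card n - 1 + 1) = 0 := by
    by_cases h0 : Fintype.card n = 0
    · have : IsEmpty n := Fintype.card_eq_zero_iff.mp h0
      exact Subsingleton.elim _ _
    · rw [Nat.sub_add_cancel (by omega), hN]
  rw [h1, zero_mul, zero_add, Algebra.algebraMap_eq_smul_one, mul_smul_comm, mul_one]

theorem vanish_of_strict [Infinite k] {n : Type*} [Fintype n] [DecidableEq n]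
    (F : MvPolynomial (Fin 3 × n × n) k)
    (hF : ∀ T : Fin 3 → Matrix n n k, Curv' T → eval (co T) F = 0)
    (T : Fin 3 → Matrix n n k) (hT : Curv T) : eval (co T) F = 0 := by
  obtain ⟨N, hN1, hN2, hp⟩ := hT
  choose p hp0 hp1 using hp
  let c : Fin 3 × n × n → Polynomial k := fun z =>
    Polynomial.C (T z.1 z.2.1 z.2.2) +
      (if z.1 = 0 then Polynomial.X * Polynomial.C (N z.2.1 z.2.2) else 0)
  let T' : k → Fin 3 → Matrix n n k := fun s i => T i + if i = 0 then s • N else 0
  have hc : ∀ s, (fun z => (c z).eval s) = co (T' s) := by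
    intro s
    funext z
    simp only [c, T', co]
    by_cases h : z.1 = 0
    · simp only [h, if_true, Polynomial.eval_add, Polynomial.eval_C, Polynomial.eval_mul,
        Polynomial.eval_X, Matrix.add_apply, Matrix.smul_apply, smul_eq_mul]
    · simp [h]
  have hz : aeval c F = 0 := by
    apply Polynomial.eq_zero_of_infinite_isRoot
    refine Set.Infinite.mono ?_ (Set.Finite.infinite_compl
      (Set.finite_singleton (-(p 0).coeff 1)))
    intro s hs
    change (aeval c F).eval s = 0
    rw [eval_curve, hc]
    have hform : ∀ i, T' s i = Polynomial.aeval N (p i + if i = 0 then s • Polynomial.X else 0) := by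
      intro i
      simp only [T', map_add, hp1 i]
      by_cases h : i = 0
      · rw [if_pos h, if_pos h, map_smul, Polynomial.aeval_X]
      · rw [if_neg h, if_neg h, map_zero]
    have hX : ∀ q : Polynomial k, q.coeff 0 = 0 → q = Polynomial.X * q.divX := by
      intro q hq
      conv_lhs => rw [← Polynomial.X_mul_divX_add q]
      rw [hq, map_zero, add_zero]
    refine hF _ ⟨?_, ?_, ?_⟩
    · intro i j
      rw [hform, hform, ← map_mul, ← map_mul, mul_comm]
    · intro i
      rw [hform]
      have h0 : (p i + if i = 0 then s • Polynomial.X else 0).coeff 0 = 0 := by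
        by_cases h : i = 0
        · simp [h, hp0]
        · simp [h, hp0]
      refine ⟨Fintype.card n, ?_⟩
      rw [hX _ h0, map_mul, Polynomial.aeval_X]
      have hcomm : Commute N (Polynomial.aeval N
          ((p i + if i = 0 then s • Polynomial.X else 0).divX)) := by
        have := (Polynomial.aeval_X (R := k) N)
        conv_lhs => rw [← this]
        exact (Commute.all (Polynomial.X : Polynomial k) _).map (Polynomial.aeval N)
      rw [hcomm.mul_pow, hN1, zero_mul]
    · refine ⟨fun i => if i = 0 then 1 else 0, ?_⟩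
      have h1 : (∑ i, (if i = 0 then (1 : k) else 0) • T' s i) = T' s 0 := by
        simp
      rw [h1, hform 0]
      have h0 : (p 0 + if (0 : Fin 3) = 0 then s • Polynomial.X else 0).coeff 0 = 0 := by
        simp [hp0]
      rw [hX _ h0, pow_aeval hN1]
      refine smul_ne_zero (pow_ne_zero _ ?_) hN2
      rw [Polynomial.coeff_divX]
      simp only [if_true, zero_add, Polynomial.coeff_add, Polynomial.coeff_smul,
        Polynomial.coeff_X_one, smul_eq_mul, mul_one]
      intro h2
      exact hs (by rw [Set.mem_singleton_iff]; linear_combination h2)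
  have h5 := eval_curve c F 0
  rw [hz, hc, Polynomial.eval_zero] at h5
  have h6 : T' 0 = T := by
    funext i
    simp [T']
  rw [h6] at h5
  exact h5.symm

/-- Selection of a nonvanishing minor. -/
theorem exists_sel {ι : Type*} {d : ℕ} (w : ι → Fin d → k)
    (h : Submodule.span k (Set.range w) = ⊤) :
    ∃ σ : Fin d → ι, (Matrix.of fun c => w (σ c)).det ≠ 0 := by
  obtain ⟨f, hf1, -, hf3⟩ := Submodule.exists_fun_fin_finrank_span_eq k (Set.range w)
  have hd : Module.finrank k (Submodule.span k (Set.range w)) = d := by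
    rw [h, finrank_top, Module.finrank_fintype_fun_eq_card, Fintype.card_fin]
  choose g hg using hf1
  refine ⟨fun c => g (Fin.cast hd.symm c), ?_⟩
  have h1 : LinearIndependent k (Matrix.of fun c : Fin d => w (g (Fin.cast hd.symm c))).row := by
    have h2 : (Matrix.of fun c : Fin d => w (g (Fin.cast hd.symm c))).row =
        f ∘ (Fin.cast hd.symm) := by
      funext c
      exact hg _
    rw [h2]
    exact hf3.comp _ (Fin.cast_injective _)
  rw [Matrix.linearIndependent_rows_iff_isUnit, Matrix.isUnit_iff_isUnit_det] at h1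
  exact h1.ne_zero

theorem span_of_sel {ι : Type*} {d : ℕ} (w : ι → Fin d → k) (σ : Fin d → ι)
    (h : (Matrix.of fun c => w (σ c)).det ≠ 0) : Submodule.span k (Set.range w) = ⊤ := by
  have h1 : LinearIndependent k (Matrix.of fun c : Fin d => w (σ c)).row := by
    rw [Matrix.linearIndependent_rows_iff_isUnit, Matrix.isUnit_iff_isUnit_det]
    exact isUnit_iff_ne_zero.mpr h
  have h2 : Submodule.span k (Set.range (Matrix.of fun c : Fin d => w (σ c)).row) = ⊤ := by
    rcases Nat.eq_zero_or_pos d with hd | hd
    · subst hd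
      exact Subsingleton.elim _ _
    · have : Nonempty (Fin d) := ⟨⟨0, hd⟩⟩
      apply h1.span_eq_top_of_card_eq_finrank
      simp
  rw [eq_top_iff, ← h2, Submodule.span_le]
  rintro _ ⟨c, rfl⟩
  exact Submodule.subset_span ⟨σ c, rfl⟩

end Pool.Agent.Lib.Q5dc
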