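import Mathlib

/-! Curvilinear triples of matrices and their Zariski closure (MP_5dcbc3_ag). -/

namespace Pool.Agent.Lib.Q5dc

open MvPolynomial

variable {k : Type*} [Field k] {n : Type*} [Fintype n] [DecidableEq n]
  {m : Type*} [Fintype m] [DecidableEq m]

/-- Curvilinear triples: all three matrices are polynomials without constant term in one
nilpotent matrix `N` whose power of exponent (size minus one) is not zero. -/
def Curv (T : Fin 3 → Matrix n n k) : Prop :=
  ∃ N : Matrix n n k, N ^ Fintype.card n = 0 ∧ N ^ (Fintype.card n - 1) ≠ 0 ∧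
    ∀ i, ∃ p : Polynomial k, p.coeff 0 = 0 ∧ T i = Polynomial.aeval N p

/-- The coordinates of a triple. -/
def co (T : Fin 3 → Matrix n n k) : Fin 3 × n × n → k := fun x => T x.1 x.2.1 x.2.2

/-- Zariski closure of the curvilinear triples. -/
def Cl (T : Fin 3 → Matrix n n k) : Prop :=
  ∀ F : MvPolynomial (Fin 3 × n × n) k,
    (∀ T' : Fin 3 → Matrix n n k, Curv T' → eval (co T') F = 0) → eval (co T) F = 0

theorem Cl.of_curv {T : Fin 3 → Matrix n n k} (h : Curv T) : Cl T := fun _ hF => hF T h

theorem Cl.map (φ : Matrix n n k →ₗ[k] Matrix m m k)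
    (hφ : ∀ T : Fin 3 → Matrix n n k, Curv T → Curv (fun i => φ (T i)))
    {T : Fin 3 → Matrix n n k} (h : Cl T) : Cl (fun i => φ (T i)) := by
  intro F hF
  let F' : MvPolynomial (Fin 3 × n × n) k :=
    aeval (fun z : Fin 3 × m × m => ∑ x : n, ∑ y : n,
      C (φ (Matrix.single x y (1 : k)) z.2.1 z.2.2) * X (z.1, x, y)) F
  have hev : ∀ T : Fin 3 → Matrix n n k, eval (co T) F' = eval (co (fun i => φ (T i))) F := by
    intro T
    have h1 : ((aeval (co T) : MvPolynomial (Fin 3 × n × n) k →ₐ[k] k).comp
        (aeval (fun z : Fin 3 × m × m => ∑ x : n, ∑ y : n,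
          C (φ (Matrix.single x y (1 : k)) z.2.1 z.2.2) * X (z.1, x, y)))) =
        (aeval (co (fun i => φ (T i))) : MvPolynomial (Fin 3 × m × m) k →ₐ[k] k) := by
      apply MvPolynomial.algHom_ext
      rintro ⟨i, x', y'⟩
      simp only [AlgHom.comp_apply, aeval_X, map_sum, map_mul, aeval_C, Algebra.algebraMap_self,
        RingHom.id_apply]
      have h2 : φ (T i) = ∑ x : n, ∑ y : n, T i x y • φ (Matrix.single x y (1 : k)) := by
        conv_lhs => rw [Matrix.matrix_eq_sum_single (T i)]
        rw [map_sum]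
        refine Finset.sum_congr rfl fun x _ => ?_
        rw [map_sum]
        refine Finset.sum_congr rfl fun y _ => ?_
        rw [← map_smul]
        congr 1
        simp
      have h4 : co (fun i => φ (T i)) (i, x', y') = φ (T i) x' y' := rfl
      rw [h4, h2]
      simp only [Matrix.sum_apply, Matrix.smul_apply, smul_eq_mul]
      refine Finset.sum_congr rfl fun x _ => ?_
      refine Finset.sum_congr rfl fun y _ => ?_
      have h5 : co T (i, x, y) = T i x y := rfl
      rw [h5, mul_comm]
    have h3 := congrArg (fun f => f F) h1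
    simp only [AlgHom.comp_apply] at h3
    exact h3
  rw [← hev]
  refine h F' fun T' hT' => ?_
  rw [hev]
  exact hF _ (hφ T' hT')

theorem Cl.curve [Infinite k] (c : Fin 3 → n → n → Polynomial k)
    (hc : {s : k | Cl (fun i => Matrix.of fun x y => (c i x y).eval s)}.Infinite) (s₀ : k) :
    Cl (fun i => Matrix.of fun x y => (c i x y).eval s₀) := by
  intro F hF
  have hev : ∀ s : k, (aeval (fun z : Fin 3 × n × n => c z.1 z.2.1 z.2.2) F).eval s =
      eval (co (fun i => Matrix.of fun x y => (c i x y).eval s)) F := by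
    intro s
    have h1 : ((Polynomial.aeval s : Polynomial k →ₐ[k] k).comp
        (aeval (fun z : Fin 3 × n × n => c z.1 z.2.1 z.2.2))) =
        (aeval (co (fun i => Matrix.of fun x y => (c i x y).eval s)) :
          MvPolynomial (Fin 3 × n × n) k →ₐ[k] k) := by
      apply MvPolynomial.algHom_ext
      rintro ⟨i, x, y⟩
      simp [co, Polynomial.coe_aeval_eq_eval]
    have h3 := congrArg (fun f => f F) h1
    simp only [AlgHom.comp_apply, Polynomial.coe_aeval_eq_eval] at h3
    exact h3
  have hz : aeval (fun z : Fin 3 × n × n => c z.1 z.2.1 z.2.2) F = 0 := by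
    apply Polynomial.eq_zero_of_infinite_isRoot
    refine hc.mono fun s hs => ?_
    simp only [Set.mem_ofPred_eq, Polynomial.IsRoot.def]
    rw [hev]
    exact hs F hF
  rw [← hev, hz, Polynomial.eval_zero]

/-- Conjugation as an algebra homomorphism. -/
def conjHom (g h : Matrix n n k) (hg : g * h = 1) (hh : h * g = 1) :
    Matrix n n k →ₐ[k] Matrix n n k where
  toFun X := g * X * h
  map_one' := by simp [hg]
  map_mul' X Y := by
    calc g * (X * Y) * h = g * X * 1 * Y * h := by simp [Matrix.mul_assoc]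
      _ = g * X * (h * g) * Y * h := by rw [hh]
      _ = g * X * h * (g * Y * h) := by simp only [Matrix.mul_assoc]
  map_zero' := by simp
  map_add' X Y := by simp [Matrix.mul_add, Matrix.add_mul]
  commutes' r := by
    rw [Matrix.algebraMap_eq_diagonal]
    have : g * Matrix.diagonal (algebraMap k (n → k) r) =
        Matrix.diagonal (algebraMap k (n → k) r) * g := by
      ext i j
      simp [Matrix.mul_diagonal, Matrix.diagonal_mul, mul_comm]
    rw [this, Matrix.mul_assoc, hg, Matrix.mul_one]

@[simp] theorem conjHom_apply (g h : Matrix n n k) (hg : g * h = 1) (hh : h * g = 1)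
    (X : Matrix n n k) : conjHom g h hg hh X = g * X * h := rfl

theorem conjHom_injective (g h : Matrix n n k) (hg : g * h = 1) (hh : h * g = 1) :
    Function.Injective (conjHom g h hg hh) := by
  intro X Y hXY
  have h1 := congrArg (fun Z => h * Z * g) hXY
  simp only [conjHom_apply] at h1
  calc X = (h * g) * X * (h * g) := by simp [hh]
    _ = h * (g * X * h) * g := by simp only [Matrix.mul_assoc]
    _ = h * (g * Y * h) * g := h1
    _ = (h * g) * Y * (h * g) := by simp only [Matrix.mul_assoc]
    _ = Y := by simp [hh]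

theorem Curv.mapHom (φ : Matrix n n k →ₐ[k] Matrix m m k) (hφ : Function.Injective φ)
    (hc : Fintype.card n = Fintype.card m) {T : Fin 3 → Matrix n n k} (h : Curv T) :
    Curv (fun i => φ (T i)) := by
  obtain ⟨N, h1, h2, h3⟩ := h
  refine ⟨φ N, ?_, ?_, ?_⟩
  · rw [← map_pow, ← hc, h1, map_zero]
  · rw [← map_pow, ← hc]
    intro h4
    exact h2 (hφ (by rw [h4, map_zero]))
  · intro i
    obtain ⟨p, hp, hT⟩ := h3 i
    refine ⟨p, hp, ?_⟩
    change φ (T i) = _
    rw [hT, Polynomial.aeval_algHom_apply]

theorem Curv.conj (g h : Matrix n n k) (hg : g * h = 1) (hh : h * g = 1)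
    {T : Fin 3 → Matrix n n k} (hT : Curv T) : Curv (fun i => g * T i * h) :=
  hT.mapHom (conjHom g h hg hh) (conjHom_injective g h hg hh) rfl

theorem Curv.smul (s : k) {T : Fin 3 → Matrix n n k} (hT : Curv T) :
    Curv (fun i => s • T i) := by
  obtain ⟨N, h1, h2, h3⟩ := hT
  refine ⟨N, h1, h2, fun i => ?_⟩
  obtain ⟨p, hp, hT⟩ := h3 i
  exact ⟨s • p, by simp [hp], by change s • T i = _; rw [hT, map_smul]⟩

theorem aeval_transpose (N : Matrix n n k) (p : Polynomial k) :
    (Polynomial.aeval N p).transpose = Polynomial.aeval N.transpose p := by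
  rw [Polynomial.aeval_eq_sum_range, Polynomial.aeval_eq_sum_range, Matrix.transpose_sum]
  refine Finset.sum_congr rfl fun i _ => ?_
  rw [Matrix.transpose_smul, Matrix.transpose_pow]

theorem Curv.transpose {T : Fin 3 → Matrix n n k} (hT : Curv T) :
    Curv (fun i => (T i).transpose) := by
  obtain ⟨N, h1, h2, h3⟩ := hT
  refine ⟨N.transpose, ?_, ?_, fun i => ?_⟩
  · rw [← Matrix.transpose_pow, h1, Matrix.transpose_zero]
  · rw [← Matrix.transpose_pow]
    intro h4
    exact h2 (by rw [← Matrix.transpose_transpose (N ^ _), h4, Matrix.transpose_zero])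
  · obtain ⟨p, hp, hT⟩ := h3 i
    exact ⟨p, hp, by change (T i).transpose = _; rw [hT, aeval_transpose]⟩

theorem Cl.transpose {T : Fin 3 → Matrix n n k} (hT : Cl T) :
    Cl (fun i => (T i).transpose) :=
  Cl.map (Matrix.transposeLinearEquiv n n k k).toLinearMap
    (fun _ h => h.transpose) hT

theorem Cl.mapEquiv (φ : Matrix n n k ≃ₐ[k] Matrix m m k)
    (hc : Fintype.card n = Fintype.card m) {T : Fin 3 → Matrix n n k} (h : Cl T) :
    Cl (fun i => φ (T i)) :=
  Cl.map φ.toLinearMap (fun _ h => h.mapHom φ.toAlgHom φ.injective hc) h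

theorem Cl.conj (g h : Matrix n n k) (hg : g * h = 1) (hh : h * g = 1)
    {T : Fin 3 → Matrix n n k} (hT : Cl T) : Cl (fun i => g * T i * h) :=
  Cl.map (conjHom g h hg hh).toLinearMap (fun _ h' => h'.conj g h hg hh) hT

end Pool.Agent.Lib.Q5dc
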