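import Pool.Agent.Lib.Q5dc.Defs
import Pool.Agent.Lib.Q5dc.Tan

/-! Block matrices: retraction of a curvilinear triple to its lower left block, and the
polynomial curves through a lower left block. -/

namespace Pool.Agent.Lib.Q5dc

open MvPolynomial Matrix

variable {k : Type*} [Field k] {a b : ℕ}

/-- The triple with lower left blocks `A`. -/
def blk (A : Fin 3 → Matrix (Fin b) (Fin a) k) :
    Fin 3 → Matrix (Fin a ⊕ Fin b) (Fin a ⊕ Fin b) k :=
  fun i => Matrix.fromBlocks 0 0 (A i) 0

/-- `A` is in the closure. -/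
def SS (A : Fin 3 → Matrix (Fin b) (Fin a) k) : Prop := Cl (blk A)

theorem SS.mul {A : Fin 3 → Matrix (Fin b) (Fin a) k} (hA : SS A)
    {g g' : Matrix (Fin b) (Fin b) k} {h h' : Matrix (Fin a) (Fin a) k}
    (h1 : g * g' = 1) (h2 : g' * g = 1) (h3 : h * h' = 1) (h4 : h' * h = 1) :
    SS (fun i => g * A i * h) := by
  have h5 : Matrix.fromBlocks h' 0 0 g * Matrix.fromBlocks h 0 0 g' = 1 := by
    rw [Matrix.fromBlocks_multiply]; simp [h1, h4]
  have h6 : Matrix.fromBlocks h 0 0 g' * Matrix.fromBlocks h' 0 0 g = 1 := by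
    rw [Matrix.fromBlocks_multiply]; simp [h2, h3]
  have h7 := Cl.conj _ _ h5 h6 hA
  have h8 : (fun i => Matrix.fromBlocks h' 0 0 g * blk A i * Matrix.fromBlocks h 0 0 g') =
      blk (fun i => g * A i * h) := by
    funext i
    simp [blk, Matrix.fromBlocks_multiply]
  rw [h8] at h7
  exact h7

/-- The entries of the retraction curve. -/
noncomputable def rc (T : Matrix (Fin a ⊕ Fin b) (Fin a ⊕ Fin b) k) :
    Fin a ⊕ Fin b → Fin a ⊕ Fin b → Polynomial k
  | Sum.inl x, Sum.inl y => Polynomial.X * Polynomial.C (T (Sum.inl x) (Sum.inl y))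
  | Sum.inl x, Sum.inr y => Polynomial.X ^ 2 * Polynomial.C (T (Sum.inl x) (Sum.inr y))
  | Sum.inr x, Sum.inl y => Polynomial.C (T (Sum.inr x) (Sum.inl y))
  | Sum.inr x, Sum.inr y => Polynomial.X * Polynomial.C (T (Sum.inr x) (Sum.inr y))

theorem SS.of_curv [Infinite k] {T : Fin 3 → Matrix (Fin a ⊕ Fin b) (Fin a ⊕ Fin b) k}
    (hT : Curv T) : SS (fun i => (T i).toBlocks₂₁) := by
  have h1 := Cl.curve (k := k) (fun i => rc (T i)) ?_ 0
  · have h2 : (fun i => Matrix.of fun x y => (rc (T i) x y).eval 0) =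
        blk (fun i => (T i).toBlocks₂₁) := by
      funext i
      ext x y
      rcases x with x | x <;> rcases y with y | y <;> simp [rc, blk, Matrix.toBlocks₂₁]
    rw [h2] at h1
    exact h1
  · refine Set.Infinite.mono ?_ (Set.Finite.infinite_compl (Set.finite_singleton (0 : k)))
    intro s hs
    have hs0 : s ≠ 0 := hs
    have h5 : Matrix.fromBlocks (s • (1 : Matrix (Fin a) (Fin a) k)) 0 0
        (1 : Matrix (Fin b) (Fin b) k) * Matrix.fromBlocks (s⁻¹ • 1) 0 0 1 = 1 := by
      rw [Matrix.fromBlocks_multiply]; simp [smul_smul, hs0]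
    have h6 : Matrix.fromBlocks (s⁻¹ • (1 : Matrix (Fin a) (Fin a) k)) 0 0
        (1 : Matrix (Fin b) (Fin b) k) * Matrix.fromBlocks (s • 1) 0 0 1 = 1 := by
      rw [Matrix.fromBlocks_multiply]; simp [smul_smul, hs0]
    have h7 := (Curv.conj _ _ h5 h6 hT).smul s
    have h8 : (fun i => Matrix.of fun x y => (rc (T i) x y).eval s) =
        (fun i => s • (Matrix.fromBlocks (s • (1 : Matrix (Fin a) (Fin a) k)) 0 0
        (1 : Matrix (Fin b) (Fin b) k) * T i * Matrix.fromBlocks (s⁻¹ • 1) 0 0 1)) := by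
      funext i
      conv_rhs => rw [← Matrix.fromBlocks_toBlocks (T i)]
      rw [Matrix.fromBlocks_multiply, Matrix.fromBlocks_multiply, Matrix.fromBlocks_smul]
      ext x y
      rcases x with x | x <;> rcases y with y | y
      · simp [rc, Matrix.toBlocks₁₁]
        field_simp
      · simp [rc, Matrix.toBlocks₁₂]
        ring
      · simp [rc, Matrix.toBlocks₂₁]
        field_simp
      · simp [rc, Matrix.toBlocks₂₂]
        ring
    change Cl (fun i => Matrix.of fun x y => (rc (T i) x y).eval s)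
    rw [h8]
    exact Cl.of_curv h7

/-- The lower left block after a unipotent conjugation. -/
theorem SS.of_curv_unip [Infinite k] {T : Fin 3 → Matrix (Fin a ⊕ Fin b) (Fin a ⊕ Fin b) k}
    (hT : Curv T) (N : Matrix (Fin b) (Fin a) k) :
    SS (fun i => (T i).toBlocks₂₁ + N * (T i).toBlocks₁₁ - (T i).toBlocks₂₂ * N
      - N * (T i).toBlocks₁₂ * N) := by
  have h5 : Matrix.fromBlocks (1 : Matrix (Fin a) (Fin a) k) 0 N
      (1 : Matrix (Fin b) (Fin b) k) * Matrix.fromBlocks 1 0 (-N) 1 = 1 := by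
    rw [Matrix.fromBlocks_multiply]; simp
  have h6 : Matrix.fromBlocks (1 : Matrix (Fin a) (Fin a) k) 0 (-N)
      (1 : Matrix (Fin b) (Fin b) k) * Matrix.fromBlocks 1 0 N 1 = 1 := by
    rw [Matrix.fromBlocks_multiply]; simp
  have h7 := SS.of_curv (Curv.conj _ _ h5 h6 hT)
  convert h7 using 2 with i
  conv_rhs => rw [← Matrix.fromBlocks_toBlocks (T i)]
  rw [Matrix.fromBlocks_multiply, Matrix.fromBlocks_multiply, Matrix.toBlocks_fromBlocks₂₁]
  simp only [Matrix.one_mul, Matrix.mul_one, Matrix.mul_neg, Matrix.add_mul]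
  abel

/-- Nonvanishing of `det (1 + s x)` for all but finitely many `s`. -/
theorem finite_det_zero {n : Type*} [Fintype n] [DecidableEq n] (x : Matrix n n k) :
    {s : k | (1 + s • x).det = 0}.Finite := by
  have h1 : ∀ s : k, (1 + s • x).det =
      ((1 + (Polynomial.X : Polynomial k) • x.map Polynomial.C).det).eval s := by
    intro s
    rw [← Polynomial.coe_evalRingHom, RingHom.map_det]
    congr 1
    ext i j
    simp [Matrix.one_apply, apply_ite]
    ring
  have h2 : (1 + (Polynomial.X : Polynomial k) • x.map Polynomial.C).det ≠ 0 := by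
    intro h
    have := h1 0
    rw [h] at this
    simp at this
  refine (Polynomial.finite_setOfPred_isRoot h2).subset ?_
  intro s hs
  change Polynomial.eval s _ = 0
  rw [← h1]
  exact hs

theorem expand (x2 : Matrix (Fin b) (Fin b) k) (x1 : Matrix (Fin a) (Fin a) k)
    (t w1 w2 w3 : Matrix (Fin b) (Fin a) k) (s : k) :
    (1 + s • x2) * (t + s • w1 + s ^ 2 • w2 + s ^ 3 • w3) * (1 + s • x1) =
      t + s • ((x2 * t + w1 + t * x1) + s • (w2 + x2 * w1 + w1 * x1 + x2 * t * x1)
        + s ^ 2 • (w3 + x2 * w2 + w2 * x1 + x2 * w1 * x1)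
        + s ^ 3 • (x2 * w3 + w3 * x1 + x2 * w2 * x1) + s ^ 4 • (x2 * w3 * x1)) := by
  simp only [Matrix.add_mul, Matrix.mul_add, Matrix.smul_mul, Matrix.mul_smul, Matrix.one_mul,
    Matrix.mul_one, Matrix.mul_assoc, smul_add, smul_smul]
  module

theorem expand2 (N t : Matrix (Fin b) (Fin a) k) (t11 d11 : Matrix (Fin a) (Fin a) k)
    (t22 d22 : Matrix (Fin b) (Fin b) k) (t12 d12 : Matrix (Fin a) (Fin b) k)
    (d : Matrix (Fin b) (Fin a) k) (s : k) :
    (t + s • d) + (s • N) * (t11 + s • d11) - (t22 + s • d22) * (s • N)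
      - (s • N) * (t12 + s • d12) * (s • N) =
    t + s • (d + (N * t11 - t22 * N)) + s ^ 2 • (N * d11 - d22 * N - N * t12 * N)
      + s ^ 3 • (-(N * d12 * N)) := by
  simp only [Matrix.add_mul, Matrix.mul_add, Matrix.smul_mul, Matrix.mul_smul,
    smul_add, smul_smul, smul_sub]
  module

/-- If the directions at one curvilinear point span everything, then every `A` is in the
closure. -/
theorem all_SS [Infinite k] (J : Matrix (Fin a ⊕ Fin b) (Fin a ⊕ Fin b) k)
    (hJ1 : J ^ (a + b) = 0) (hJ2 : J ^ (a + b - 1) ≠ 0) (p : Fin 3 → Polynomial k)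
    (hp : ∀ i, (p i).coeff 0 = 0)
    (hspan : ∀ v : Fin 3 → Matrix (Fin b) (Fin a) k, ∃ (x2 : Matrix (Fin b) (Fin b) k)
      (x1 : Matrix (Fin a) (Fin a) k) (N : Matrix (Fin b) (Fin a) k) (q : Fin 3 → Polynomial k),
      ∀ i, v i = x2 * (Polynomial.aeval J (p i)).toBlocks₂₁
        + (Polynomial.aeval J (p i)).toBlocks₂₁ * x1
        + (N * (Polynomial.aeval J (p i)).toBlocks₁₁ - (Polynomial.aeval J (p i)).toBlocks₂₂ * N)
        + (Polynomial.aeval J (Polynomial.X * q i)).toBlocks₂₁)
    (A : Fin 3 → Matrix (Fin b) (Fin a) k) : SS A := by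
  intro F hF
  let G : MvPolynomial (Fin 3 × Fin b × Fin a) k :=
    aeval (fun z : Fin 3 × (Fin a ⊕ Fin b) × (Fin a ⊕ Fin b) =>
      match z.2.1, z.2.2 with
      | Sum.inr x, Sum.inl u => (X (z.1, x, u) : MvPolynomial (Fin 3 × Fin b × Fin a) k)
      | _, _ => 0) F
  have hev : ∀ y : Fin 3 × Fin b × Fin a → k, eval y G =
      eval (co (blk (fun i => Matrix.of fun x u => y (i, x, u)))) F := by
    intro y
    have h1 : ((aeval y : MvPolynomial (Fin 3 × Fin b × Fin a) k →ₐ[k] k).comp
        (aeval (fun z : Fin 3 × (Fin a ⊕ Fin b) × (Fin a ⊕ Fin b) =>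
      match z.2.1, z.2.2 with
      | Sum.inr x, Sum.inl u => (X (z.1, x, u) : MvPolynomial (Fin 3 × Fin b × Fin a) k)
      | _, _ => 0))) =
        (aeval (co (blk (fun i => Matrix.of fun x u => y (i, x, u)))) :
          MvPolynomial (Fin 3 × (Fin a ⊕ Fin b) × (Fin a ⊕ Fin b)) k →ₐ[k] k) := by
      apply MvPolynomial.algHom_ext
      rintro ⟨i, x, u⟩
      rcases x with x | x <;> rcases u with u | u <;> simp [co, blk]
    have h3 := congrArg (fun f => f F) h1
    simp only [AlgHom.comp_apply] at h3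
    exact h3
  have hG : G = 0 := by
    refine eq_zero_of_curves
      {y : Fin 3 × Fin b × Fin a → k | SS (fun i => Matrix.of fun x u => y (i, x, u))}
      (fun z => (Polynomial.aeval J (p z.1)).toBlocks₂₁ z.2.1 z.2.2) ?_ G ?_
    · intro v
      obtain ⟨x2, x1, N, q, hv⟩ := hspan (fun i => Matrix.of fun x u => v (i, x, u))
      let T : Fin 3 → Matrix (Fin a ⊕ Fin b) (Fin a ⊕ Fin b) k :=
        fun i => Polynomial.aeval J (p i)
      let D : Fin 3 → Matrix (Fin a ⊕ Fin b) (Fin a ⊕ Fin b) k :=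
        fun i => Polynomial.aeval J (Polynomial.X * q i)
      let w1 : Fin 3 → Matrix (Fin b) (Fin a) k := fun i =>
        (D i).toBlocks₂₁ + (N * (T i).toBlocks₁₁ - (T i).toBlocks₂₂ * N)
      let w2 : Fin 3 → Matrix (Fin b) (Fin a) k := fun i =>
        N * (D i).toBlocks₁₁ - (D i).toBlocks₂₂ * N - N * (T i).toBlocks₁₂ * N
      let w3 : Fin 3 → Matrix (Fin b) (Fin a) k := fun i => -(N * (D i).toBlocks₁₂ * N)
      let t : Fin 3 → Matrix (Fin b) (Fin a) k := fun i => (T i).toBlocks₂₁
      refine ⟨fun z => Polynomial.C (v z)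
        + Polynomial.X * Polynomial.C ((w2 z.1 + x2 * w1 z.1 + w1 z.1 * x1
            + x2 * t z.1 * x1) z.2.1 z.2.2)
        + Polynomial.X ^ 2 * Polynomial.C ((w3 z.1 + x2 * w2 z.1 + w2 z.1 * x1
            + x2 * w1 z.1 * x1) z.2.1 z.2.2)
        + Polynomial.X ^ 3 * Polynomial.C ((x2 * w3 z.1 + w3 z.1 * x1
            + x2 * w2 z.1 * x1) z.2.1 z.2.2)
        + Polynomial.X ^ 4 * Polynomial.C ((x2 * w3 z.1 * x1) z.2.1 z.2.2), ?_, ?_⟩
      · intro z
        simp
      · refine Set.Infinite.mono ?_ (Set.Finite.infinite_compl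
          ((finite_det_zero x2).union (finite_det_zero x1)))
        intro s hs
        have hs2 : (1 + s • x2).det ≠ 0 := fun h => hs (Or.inl h)
        have hs1 : (1 + s • x1).det ≠ 0 := fun h => hs (Or.inr h)
        have hC : Curv (fun i => T i + s • D i) := by
          refine ⟨J, by simpa using hJ1, by simpa using hJ2, fun i => ?_⟩
          refine ⟨p i + s • (Polynomial.X * q i), by simp [hp i], ?_⟩
          simp only [T, D, map_add, map_smul]
        have h1 := (SS.of_curv_unip hC (s • N)).mul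
          (Matrix.mul_nonsing_inv _ (isUnit_iff_ne_zero.mpr hs2))
          (Matrix.nonsing_inv_mul _ (isUnit_iff_ne_zero.mpr hs2))
          (Matrix.mul_nonsing_inv _ (isUnit_iff_ne_zero.mpr hs1))
          (Matrix.nonsing_inv_mul _ (isUnit_iff_ne_zero.mpr hs1))
        have h2 : (fun i => (1 + s • x2) * ((T i + s • D i).toBlocks₂₁
            + (s • N) * (T i + s • D i).toBlocks₁₁ - (T i + s • D i).toBlocks₂₂ * (s • N)
            - (s • N) * (T i + s • D i).toBlocks₁₂ * (s • N)) * (1 + s • x1)) =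
            (fun i => t i + s • ((x2 * t i + w1 i + t i * x1)
              + s • (w2 i + x2 * w1 i + w1 i * x1 + x2 * t i * x1)
              + s ^ 2 • (w3 i + x2 * w2 i + w2 i * x1 + x2 * w1 i * x1)
              + s ^ 3 • (x2 * w3 i + w3 i * x1 + x2 * w2 i * x1)
              + s ^ 4 • (x2 * w3 i * x1))) := by
          funext i
          rw [← expand]
          congr 2
          exact expand2 N (T i).toBlocks₂₁ (T i).toBlocks₁₁ (D i).toBlocks₁₁ (T i).toBlocks₂₂
            (D i).toBlocks₂₂ (T i).toBlocks₁₂ (D i).toBlocks₁₂ (D i).toBlocks₂₁ s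
        rw [h2] at h1
        change SS (fun i => Matrix.of fun x u => _)
        convert h1 using 2 with i
        ext x u
        have h3 : v (i, x, u) = (x2 * t i + w1 i + t i * x1) x u := by
          have h4 := congrFun (congrFun (hv i) x) u
          simp only [Matrix.of_apply] at h4
          rw [h4]
          simp only [t, w1, T, D, Matrix.add_apply, Matrix.sub_apply]
          ring
        simp only [Matrix.of_apply, Matrix.add_apply, Matrix.smul_apply, smul_eq_mul] at h3 ⊢
        rw [h3]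
        simp only [Polynomial.eval_add, Polynomial.eval_mul, Polynomial.eval_C,
          Polynomial.eval_X, Polynomial.eval_pow]
        simp only [t, T]
    · intro y hy
      rw [hev]
      exact hy F hF
  have h9 := hev (fun z => A z.1 z.2.1 z.2.2)
  rw [hG, map_zero] at h9
  exact h9.symm

end Pool.Agent.Lib.Q5dc
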