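import Pool.Agent.Lib.Q5dc.Span

/-! The directions at the special point span everything (duality with `Sys`). -/

namespace Pool.Agent.Lib.Q5dc

open Matrix

variable {k : Type*} [Field k]

/-- The exponents. -/
def al (a e : ℕ) : Fin 3 → ℕ := ![1, a, a + e + 1]

/-- The blocks of the powers of `J`. -/
theorem blk21 (a b m : ℕ) (x : Fin b) (u : Fin a) :
    (J k a b ^ m).toBlocks₂₁ x u = if a + (x : ℕ) = u + m then 1 else 0 := by
  simp only [Matrix.toBlocks₂₁, Matrix.of_apply, J_pow, pos]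
  exact if_congr Iff.rfl rfl rfl

theorem blk11 (a b m : ℕ) (x : Fin a) (u : Fin a) :
    (J k a b ^ m).toBlocks₁₁ x u = if (x : ℕ) = u + m then 1 else 0 := by
  simp only [Matrix.toBlocks₁₁, Matrix.of_apply, J_pow, pos]
  exact if_congr Iff.rfl rfl rfl

theorem blk22 (a b m : ℕ) (x : Fin b) (u : Fin b) :
    (J k a b ^ m).toBlocks₂₂ x u = if a + (x : ℕ) = a + u + m then 1 else 0 := by
  simp only [Matrix.toBlocks₂₂, Matrix.of_apply, J_pow, pos]
  exact if_congr Iff.rfl rfl rfl

/-- The linear map of directions. -/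
noncomputable def dirMap (a b : ℕ) (α : Fin 3 → ℕ) :
    (Matrix (Fin b) (Fin b) k × Matrix (Fin a) (Fin a) k × Matrix (Fin b) (Fin a) k ×
      (Fin 3 → Polynomial k)) →ₗ[k] (Fin 3 → Matrix (Fin b) (Fin a) k) where
  toFun z := fun i => z.1 * (J k a b ^ α i).toBlocks₂₁ + (J k a b ^ α i).toBlocks₂₁ * z.2.1
    + (z.2.2.1 * (J k a b ^ α i).toBlocks₁₁ - (J k a b ^ α i).toBlocks₂₂ * z.2.2.1)
    + (Polynomial.aeval (J k a b) (Polynomial.X * z.2.2.2 i)).toBlocks₂₁
  map_add' z w := by
    funext i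
    have h : (Polynomial.aeval (J k a b) (Polynomial.X * (z.2.2.2 i + w.2.2.2 i))).toBlocks₂₁ =
        (Polynomial.aeval (J k a b) (Polynomial.X * z.2.2.2 i)).toBlocks₂₁ +
        (Polynomial.aeval (J k a b) (Polynomial.X * w.2.2.2 i)).toBlocks₂₁ := by
      rw [mul_add, map_add]; rfl
    simp only [Prod.fst_add, Prod.snd_add, Pi.add_apply, Matrix.add_mul, Matrix.mul_add, h]
    abel
  map_smul' c z := by
    funext i
    have h : (Polynomial.aeval (J k a b) (Polynomial.X * (c • z.2.2.2 i))).toBlocks₂₁ =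
        c • (Polynomial.aeval (J k a b) (Polynomial.X * z.2.2.2 i)).toBlocks₂₁ := by
      rw [mul_smul_comm, map_smul]; rfl
    simp only [Prod.smul_fst, Prod.smul_snd, Pi.smul_apply, Matrix.smul_mul, Matrix.mul_smul, h,
      RingHom.id_apply, smul_add, smul_sub]

/-- The coordinates of a functional. -/
noncomputable def Yf {a b : ℕ} (f : (Fin 3 → Matrix (Fin b) (Fin a) k) →ₗ[k] k) (i : Fin 3)
    (u x : ℕ) : k :=
  if h : u < a ∧ x < b then f (Pi.single i (Matrix.single ⟨x, h.2⟩ ⟨u, h.1⟩ 1)) else 0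

theorem Yf_out {a b : ℕ} (f : (Fin 3 → Matrix (Fin b) (Fin a) k) →ₗ[k] k) (i : Fin 3)
    {u x : ℕ} (h : a ≤ u ∨ b ≤ x) : Yf f i u x = 0 := by
  rw [Yf, dif_neg]
  omega

theorem f_exp {a b : ℕ} (f : (Fin 3 → Matrix (Fin b) (Fin a) k) →ₗ[k] k)
    (v : Fin 3 → Matrix (Fin b) (Fin a) k) :
    f v = ∑ i : Fin 3, ∑ x : Fin b, ∑ u : Fin a, v i x u * Yf f i u x := by
  have h1 : v = ∑ i : Fin 3, Pi.single i (v i) := by
    funext j
    rw [Finset.sum_apply]
    simp [Pi.single_apply]
  conv_lhs => rw [h1]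
  rw [map_sum]
  refine Finset.sum_congr rfl fun i _ => ?_
  have h2 : (Pi.single i (v i) : Fin 3 → Matrix (Fin b) (Fin a) k) =
      ∑ x : Fin b, ∑ u : Fin a, v i x u • Pi.single i (Matrix.single x u (1 : k)) := by
    conv_lhs => rw [Matrix.matrix_eq_sum_single (v i)]
    have h3 : ∀ M : Matrix (Fin b) (Fin a) k, (Pi.single i M : Fin 3 → Matrix (Fin b) (Fin a) k)
        = LinearMap.single k (fun _ : Fin 3 => Matrix (Fin b) (Fin a) k) i M := fun _ => rfl
    simp only [h3]
    rw [map_sum]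
    refine Finset.sum_congr rfl fun x _ => ?_
    rw [map_sum]
    refine Finset.sum_congr rfl fun u _ => ?_
    rw [← map_smul]
    congr 1
    simp
  rw [h2, map_sum]
  refine Finset.sum_congr rfl fun x _ => ?_
  rw [map_sum]
  refine Finset.sum_congr rfl fun u _ => ?_
  rw [map_smul, Yf, dif_pos ⟨u.2, x.2⟩, smul_eq_mul]

/-- The functional is zero. -/
theorem sys_of_ker {a e : ℕ} (ha : 1 ≤ a)
    (f : (Fin 3 → Matrix (Fin (a + e)) (Fin a) k) →ₗ[k] k)
    (hf : ∀ z, f (dirMap a (a + e) (al a e) z) = 0) : Sys a e (Yf f 0) (Yf f 1) (Yf f 2) := by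
  have sU : ∀ (i : Fin 3) (x : ℕ) (u : ℕ), a ≤ u → Yf f i u x = 0 :=
    fun i x u hu => Yf_out f i (Or.inl hu)
  have sX : ∀ (i : Fin 3) (u : ℕ) (x : ℕ), a + e ≤ x → Yf f i u x = 0 :=
    fun i u x hx => Yf_out f i (Or.inr hx)
  have htr : ∀ (i : Fin 3), DiagZero a (Yf f i) := by
    intro i m hm
    obtain ⟨m', rfl⟩ : ∃ m', m = m' + 1 := ⟨m - 1, by omega⟩
    have h1 := hf (0, 0, 0, Pi.single i (Polynomial.X ^ m'))
    rw [f_exp] at h1
    have h2 : ∀ j : Fin 3, dirMap a (a + e) (al a e)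
        ((0, 0, 0, Pi.single i (Polynomial.X ^ m')) : _ × _ × _ × (Fin 3 → Polynomial k)) j =
        if j = i then (J k a (a + e) ^ (m' + 1)).toBlocks₂₁ else 0 := by
      intro j
      simp only [dirMap, LinearMap.coe_mk, AddHom.coe_mk, Matrix.zero_mul, Matrix.mul_zero,
        sub_zero, add_zero, zero_add]
      by_cases hj : j = i
      · subst hj
        rw [if_pos rfl, Pi.single_eq_same, ← pow_succ', map_pow, Polynomial.aeval_X]
      · rw [if_neg hj, Pi.single_eq_of_ne hj]
        simp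
        rfl
    simp only [h2] at h1
    rw [Finset.sum_eq_single i (by
        intro j _ hj
        simp [hj]) (by simp)] at h1
    simp only [if_true, blk21, ite_mul, one_mul, zero_mul] at h1
    rw [Finset.sum_comm] at h1
    have h3 : ∀ u : Fin a, ∑ x : Fin (a + e),
        (if a + (x : ℕ) = u + (m' + 1) then Yf f i u x else 0) =
        if a ≤ u + (m' + 1) then Yf f i u (u + (m' + 1) - a) else 0 :=
      fun u => sumX (Yf f i u) (sX i u) _ _
    simp only [h3] at h1
    rw [Finset.sum_range]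
    exact h1
  refine ⟨ha, fun u x h => Yf_out f 0 h, fun u x h => Yf_out f 1 h, fun u x h => Yf_out f 2 h,
    ?_, ?_, ?_, htr 0, htr 1, htr 2⟩
  · -- ww
    intro y x hy hx
    have h1 := hf ((Matrix.single ⟨x, hx⟩ ⟨y, hy⟩ 1 : Matrix (Fin (a + e)) (Fin (a + e)) k), 0, 0, 0)
    rw [f_exp] at h1
    have h2 : ∀ j : Fin 3, dirMap a (a + e) (al a e)
        (((Matrix.single ⟨x, hx⟩ ⟨y, hy⟩ 1 : Matrix (Fin (a + e)) (Fin (a + e)) k), 0, 0, 0) :
          _ × _ × _ × (Fin 3 → Polynomial k)) j =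
        (Matrix.single ⟨x, hx⟩ ⟨y, hy⟩ 1 : Matrix (Fin (a + e)) (Fin (a + e)) k) * (J k a (a + e) ^ (al a e j)).toBlocks₂₁ := by
      intro j
      simp only [dirMap, LinearMap.coe_mk, AddHom.coe_mk, Matrix.zero_mul, Matrix.mul_zero,
        sub_zero, add_zero, Pi.zero_apply, map_zero, mul_zero]
      ext; simp [Matrix.toBlocks₂₁]
    simp only [h2] at h1
    have h3 : ∀ j : Fin 3, ∑ x' : Fin (a + e), ∑ u : Fin a,
        ((Matrix.single ⟨x, hx⟩ ⟨y, hy⟩ 1 : Matrix (Fin (a + e)) (Fin (a + e)) k) * (J k a (a + e) ^ (al a e j)).toBlocks₂₁) x' u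
          * Yf f j u x' = if al a e j ≤ a + y then Yf f j (a + y - al a e j) x else 0 := by
      intro j
      rw [Finset.sum_eq_single (⟨x, hx⟩ : Fin (a + e))]
      · rw [← sumU (fun u => Yf f j u x) (sU j x) (a + y) (al a e j)]
        refine Finset.sum_congr rfl fun u _ => ?_
        rw [Matrix.single_mul_apply_same, blk21]
        simp only [one_mul, ite_mul, zero_mul]
      · intro x' _ hne
        apply Finset.sum_eq_zero
        intro u _
        rw [Matrix.single_mul_apply_of_ne _ _ _ _ _ hne, zero_mul]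
      · simp
    simp only [h3] at h1
    rw [Fin.sum_univ_three] at h1
    simp only [al, Matrix.cons_val_zero, Matrix.cons_val_one, Matrix.cons_val] at h1
    have e1 : (if 1 ≤ a + y then Yf f 0 (a + y - 1) x else 0) =
        if y = 0 then Yf f 0 (a - 1) x else 0 := by
      rw [if_pos (by omega)]
      by_cases hy0 : y = 0
      · subst hy0; simp
      · rw [if_neg hy0]; exact sU 0 x _ (by omega)
    have e2 : (if a ≤ a + y then Yf f 1 (a + y - a) x else 0) = Yf f 1 y x := by
      rw [if_pos (by omega)]; congr 1; omega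
    have e3 : (if a + e + 1 ≤ a + y then Yf f 2 (a + y - (a + e + 1)) x else 0) =
        if e + 1 ≤ y then Yf f 2 (y - (e + 1)) x else 0 := by
      by_cases h : e + 1 ≤ y
      · rw [if_pos h, if_pos (by omega)]; congr 1; omega
      · rw [if_neg h, if_neg (by omega)]
    rw [e1, e2, e3] at h1
    exact h1
  · -- uu
    intro z u hz hu
    have h1 := hf (0, (Matrix.single ⟨u, hu⟩ ⟨z, hz⟩ 1 : Matrix (Fin a) (Fin a) k), 0, 0)
    rw [f_exp] at h1
    have h2 : ∀ j : Fin 3, dirMap a (a + e) (al a e)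
        ((0, (Matrix.single ⟨u, hu⟩ ⟨z, hz⟩ 1 : Matrix (Fin a) (Fin a) k), 0, 0) :
          _ × _ × _ × (Fin 3 → Polynomial k)) j =
        (J k a (a + e) ^ (al a e j)).toBlocks₂₁ * (Matrix.single ⟨u, hu⟩ ⟨z, hz⟩ 1 : Matrix (Fin a) (Fin a) k) := by
      intro j
      simp only [dirMap, LinearMap.coe_mk, AddHom.coe_mk, Matrix.zero_mul, Matrix.mul_zero,
        sub_zero, add_zero, zero_add, Pi.zero_apply, map_zero, mul_zero]
      ext; simp [Matrix.toBlocks₂₁]
    simp only [h2] at h1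
    have h3 : ∀ j : Fin 3, ∑ x' : Fin (a + e), ∑ u' : Fin a,
        ((J k a (a + e) ^ (al a e j)).toBlocks₂₁ * (Matrix.single ⟨u, hu⟩ ⟨z, hz⟩ 1 : Matrix (Fin a) (Fin a) k)) x' u'
          * Yf f j u' x' = if a ≤ u + al a e j then Yf f j z (u + al a e j - a) else 0 := by
      intro j
      rw [Finset.sum_comm, Finset.sum_eq_single (⟨z, hz⟩ : Fin a)]
      · rw [← sumX (Yf f j z) (sX j z) (u + al a e j) a]
        refine Finset.sum_congr rfl fun x' _ => ?_
        rw [Matrix.mul_single_apply_same, blk21]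
        simp only [mul_one, ite_mul, zero_mul, one_mul]
      · intro u' _ hne
        apply Finset.sum_eq_zero
        intro x' _
        rw [Matrix.mul_single_apply_of_ne _ _ _ _ _ hne, zero_mul]
      · simp
    simp only [h3] at h1
    rw [Fin.sum_univ_three] at h1
    simp only [al, Matrix.cons_val_zero, Matrix.cons_val_one, Matrix.cons_val] at h1
    have e1 : (if a ≤ u + 1 then Yf f 0 z (u + 1 - a) else 0) =
        if u = a - 1 then Yf f 0 z 0 else 0 := by
      by_cases h : u = a - 1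
      · rw [if_pos h, if_pos (by omega)]; congr 1; omega
      · rw [if_neg h, if_neg (by omega)]
    have e2 : (if a ≤ u + a then Yf f 1 z (u + a - a) else 0) = Yf f 1 z u := by
      rw [if_pos (by omega)]; congr 1; omega
    have e3 : (if a ≤ u + (a + e + 1) then Yf f 2 z (u + (a + e + 1) - a) else 0) =
        Yf f 2 z (u + (e + 1)) := by
      rw [if_pos (by omega)]; congr 1; omega
    rw [e1, e2, e3] at h1
    exact h1
  · -- uw
    intro u x hu hx
    have h1 := hf (0, 0, (Matrix.single ⟨x, hx⟩ ⟨u, hu⟩ 1 : Matrix (Fin (a + e)) (Fin a) k), 0)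
    rw [f_exp] at h1
    have h2 : ∀ j : Fin 3, dirMap a (a + e) (al a e)
        ((0, 0, (Matrix.single ⟨x, hx⟩ ⟨u, hu⟩ 1 : Matrix (Fin (a + e)) (Fin a) k), 0) :
          _ × _ × _ × (Fin 3 → Polynomial k)) j =
        (Matrix.single ⟨x, hx⟩ ⟨u, hu⟩ 1 : Matrix (Fin (a + e)) (Fin a) k) * (J k a (a + e) ^ (al a e j)).toBlocks₁₁
        - (J k a (a + e) ^ (al a e j)).toBlocks₂₂ * (Matrix.single ⟨x, hx⟩ ⟨u, hu⟩ 1 : Matrix (Fin (a + e)) (Fin a) k) := by
      intro j
      simp only [dirMap, LinearMap.coe_mk, AddHom.coe_mk, Matrix.zero_mul, Matrix.mul_zero,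
        add_zero, zero_add, Pi.zero_apply, map_zero, mul_zero]
      ext; simp [Matrix.toBlocks₂₁]
    simp only [h2] at h1
    have h3 : ∀ j : Fin 3, ∑ x' : Fin (a + e), ∑ u' : Fin a,
        ((Matrix.single ⟨x, hx⟩ ⟨u, hu⟩ 1 : Matrix (Fin (a + e)) (Fin a) k) * (J k a (a + e) ^ (al a e j)).toBlocks₁₁
        - (J k a (a + e) ^ (al a e j)).toBlocks₂₂ * (Matrix.single ⟨x, hx⟩ ⟨u, hu⟩ 1 : Matrix (Fin (a + e)) (Fin a) k)) x' u'
          * Yf f j u' x' = (if al a e j ≤ u then Yf f j (u - al a e j) x else 0)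
            - Yf f j u (x + al a e j) := by
      intro j
      have h4 : ∀ x' : Fin (a + e), ∀ u' : Fin a,
        ((Matrix.single ⟨x, hx⟩ ⟨u, hu⟩ 1 : Matrix (Fin (a + e)) (Fin a) k) * (J k a (a + e) ^ (al a e j)).toBlocks₁₁
        - (J k a (a + e) ^ (al a e j)).toBlocks₂₂ * (Matrix.single ⟨x, hx⟩ ⟨u, hu⟩ 1 : Matrix (Fin (a + e)) (Fin a) k)) x' u'
          * Yf f j u' x' =
        ((Matrix.single ⟨x, hx⟩ ⟨u, hu⟩ 1 : Matrix (Fin (a + e)) (Fin a) k) * (J k a (a + e) ^ (al a e j)).toBlocks₁₁) x' u'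
          * Yf f j u' x'
        - ((J k a (a + e) ^ (al a e j)).toBlocks₂₂ * (Matrix.single ⟨x, hx⟩ ⟨u, hu⟩ 1 : Matrix (Fin (a + e)) (Fin a) k)) x' u'
          * Yf f j u' x' := by
        intro x' u'
        rw [Matrix.sub_apply, sub_mul]
      simp only [h4, Finset.sum_sub_distrib]
      congr 1
      · rw [Finset.sum_eq_single (⟨x, hx⟩ : Fin (a + e))]
        · rw [← sumU (fun u => Yf f j u x) (sU j x) u (al a e j)]
          refine Finset.sum_congr rfl fun u' _ => ?_
          rw [Matrix.single_mul_apply_same, blk11]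
          simp only [one_mul, ite_mul, zero_mul]
        · intro x' _ hne
          apply Finset.sum_eq_zero
          intro u' _
          rw [Matrix.single_mul_apply_of_ne _ _ _ _ _ hne, zero_mul]
        · simp
      · rw [Finset.sum_comm, Finset.sum_eq_single (⟨u, hu⟩ : Fin a)]
        · have h5 := sumX (Yf f j u) (sX j u) (a + x + al a e j) a
          rw [if_pos (by omega), show a + x + al a e j - a = x + al a e j by omega] at h5
          rw [← h5]
          refine Finset.sum_congr rfl fun x' _ => ?_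
          rw [Matrix.mul_single_apply_same, blk22]
          simp only [mul_one, ite_mul, zero_mul, one_mul]
        · intro u' _ hne
          apply Finset.sum_eq_zero
          intro x' _
          rw [Matrix.mul_single_apply_of_ne _ _ _ _ _ hne, zero_mul]
        · simp
    simp only [h3] at h1
    rw [Fin.sum_univ_three] at h1
    simp only [al, Matrix.cons_val_zero, Matrix.cons_val_one, Matrix.cons_val] at h1
    rw [if_neg (show ¬ a ≤ u by omega), if_neg (show ¬ a + e + 1 ≤ u by omega),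
      sX 2 u (x + (a + e + 1)) (by omega)] at h1
    linear_combination h1

theorem span_all [CharZero k] {a e : ℕ} (ha : 1 ≤ a)
    (v : Fin 3 → Matrix (Fin (a + e)) (Fin a) k) :
    ∃ z, dirMap a (a + e) (al a e) z = v := by
  have htop : LinearMap.range (dirMap (k := k) a (a + e) (al a e)) = ⊤ := by
    by_contra hne
    obtain ⟨f, hf0, hf⟩ := Submodule.exists_le_ker_of_lt_top _ (lt_top_iff_ne_top.mpr hne)
    have hs := sys_of_ker ha f (fun z => hf ⟨z, rfl⟩)
    apply hf0
    refine LinearMap.ext fun w => ?_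
    rw [f_exp, LinearMap.zero_apply]
    apply Finset.sum_eq_zero
    intro i _
    apply Finset.sum_eq_zero
    intro x _
    apply Finset.sum_eq_zero
    intro u _
    have : Yf f i u x = 0 := by
      fin_cases i
      · exact hs.P0 u x
      · exact hs.Q0 u x
      · exact hs.R0 u x
    rw [this, mul_zero]
  have : v ∈ LinearMap.range (dirMap (k := k) a (a + e) (al a e)) := by rw [htop]; trivial
  exact this

end Pool.Agent.Lib.Q5dc
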