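import Mathlib

/-! Linear algebra behind the two-step theorem (MP_5dcbc3_ag): the dual system at the special
point `(t, t^a, t^(b+1))`, `U = span(1,...,t^(a-1))` of `k[t]/t^(a+b)`, `b = a + e`, has only the
zero solution. -/

namespace Pool.Agent.Lib.Q5dc

variable {k : Type*} [Field k] [CharZero k]

/-- The diagonal sums of an array. -/
def DiagZero (a : ℕ) (Y : ℕ → ℕ → k) : Prop :=
  ∀ m : ℕ, 1 ≤ m → ∑ u ∈ Finset.range a, (if a ≤ u + m then Y u (u + m - a) else 0) = 0

/-- The dual system. -/
structure Sys (a e : ℕ) (P Q R : ℕ → ℕ → k) : Prop where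
  ha : 1 ≤ a
  sP : ∀ u x, (a ≤ u ∨ a + e ≤ x) → P u x = 0
  sQ : ∀ u x, (a ≤ u ∨ a + e ≤ x) → Q u x = 0
  sR : ∀ u x, (a ≤ u ∨ a + e ≤ x) → R u x = 0
  ww : ∀ y x, y < a + e → x < a + e →
    (if y = 0 then P (a - 1) x else 0) + Q y x + (if e + 1 ≤ y then R (y - (e + 1)) x else 0) = 0
  uu : ∀ z u, z < a → u < a →
    (if u = a - 1 then P z 0 else 0) + Q z u + R z (u + (e + 1)) = 0
  uw : ∀ u x, u < a → x < a + e →
    (if 1 ≤ u then P (u - 1) x else 0) - P u (x + 1) - Q u (x + a) = 0
  tP : DiagZero a P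
  tQ : DiagZero a Q
  tR : DiagZero a R

namespace Sys

variable {a e : ℕ} {P Q R : ℕ → ℕ → k}

theorem f1 (h : Sys a e P Q R) {y : ℕ} (h1 : 1 ≤ y) (h2 : y ≤ e) (x : ℕ) : Q y x = 0 := by
  by_cases hy : a ≤ y
  · exact h.sQ y x (Or.inl hy)
  by_cases hx : a + e ≤ x
  · exact h.sQ y x (Or.inr hx)
  have := h.ww y x (by omega) (by omega)
  rw [if_neg (by omega), if_neg (by omega)] at this
  simpa using this

theorem f2 (h : Sys a e P Q R) {j : ℕ} (h1 : j + (e + 1) < a) (x : ℕ) :
    Q (j + (e + 1)) x = - R j x := by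
  by_cases hx : a + e ≤ x
  · rw [h.sQ _ _ (Or.inr hx), h.sR _ _ (Or.inr hx)]; simp
  have := h.ww (j + (e + 1)) x (by omega) (by omega)
  rw [if_neg (by omega), if_pos (by omega), show j + (e + 1) - (e + 1) = j by omega] at this
  linear_combination this

theorem f2' (h : Sys a e P Q R) {j : ℕ} (h1 : a ≤ j + (e + 1)) (h2 : j + 2 ≤ a) (x : ℕ) :
    R j x = 0 := by
  by_cases hx : a + e ≤ x
  · exact h.sR _ _ (Or.inr hx)
  have := h.ww (j + (e + 1)) x (by omega) (by omega)
  rw [if_neg (by omega), if_pos (by omega), show j + (e + 1) - (e + 1) = j by omega,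
    h.sQ _ _ (Or.inl h1)] at this
  simpa using this

theorem f3 (h : Sys a e P Q R) (x : ℕ) : Q 0 x = - P (a - 1) x := by
  have ha := h.ha
  by_cases hx : a + e ≤ x
  · rw [h.sQ _ _ (Or.inr hx), h.sP _ _ (Or.inr hx)]; simp
  have := h.ww 0 x (by omega) (by omega)
  rw [if_pos rfl, if_neg (by omega)] at this
  linear_combination this

theorem f4 (h : Sys a e P Q R) {u : ℕ} (hu : u + 2 ≤ a) (z : ℕ) :
    Q z u = - R z (u + (e + 1)) := by
  by_cases hz : a ≤ z
  · rw [h.sQ _ _ (Or.inl hz), h.sR _ _ (Or.inl hz)]; simp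
  have := h.uu z u (by omega) (by omega)
  rw [if_neg (by omega)] at this
  linear_combination this

theorem f5 (h : Sys a e P Q R) (z : ℕ) : Q z (a - 1) = - P z 0 := by
  have ha := h.ha
  by_cases hz : a ≤ z
  · rw [h.sQ _ _ (Or.inl hz), h.sP _ _ (Or.inl hz)]; simp
  have := h.uu z (a - 1) (by omega) (by omega)
  rw [if_pos rfl, h.sR z (a - 1 + (e + 1)) (Or.inr (by omega))] at this
  linear_combination this

theorem f6 (h : Sys a e P Q R) {j z : ℕ} (h1 : j + (e + 1) < a) (h2 : z + 2 ≤ a) :
    R j z = R (j + (e + 1)) (z + (e + 1)) := by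
  have h3 := h.f2 h1 z
  have h4 := h.f4 h2 (j + (e + 1))
  linear_combination h3 - h4

theorem f7 (h : Sys a e P Q R) {u y : ℕ} (h1 : 1 ≤ u) (h2 : u ≤ e) (h3 : e + 1 ≤ y) :
    R u y = 0 := by
  by_cases hy : a + e ≤ y
  · exact h.sR _ _ (Or.inr hy)
  obtain ⟨z, rfl⟩ : ∃ z, y = z + (e + 1) := ⟨y - (e + 1), by omega⟩
  have h4 := h.f4 (u := z) (by omega) u
  rw [h.f1 h1 h2] at h4
  linear_combination h4

/-- The high diagonals of `R` vanish. -/
theorem lemB (h : Sys a e P Q R) {c : ℕ} (hc : e + 1 ≤ c) (j : ℕ) : R j (j + c) = 0 := by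
  have ha := h.ha
  by_cases hcb : a + e ≤ c
  · exact h.sR _ _ (Or.inr (by omega))
  have key : ∀ j, j + c < a + e → R j (j + c) = if (e + 1) ∣ j then R 0 c else 0 := by
    intro j
    induction j using Nat.strong_induction_on with
    | _ j ih =>
      intro hj
      by_cases hj0 : j = 0
      · subst hj0; simp
      by_cases hje : j ≤ e
      · rw [h.f7 (by omega) hje (by omega), if_neg]
        intro hd
        have := Nat.le_of_dvd (by omega) hd
        omega
      obtain ⟨i, rfl⟩ : ∃ i, j = i + (e + 1) := ⟨j - (e + 1), by omega⟩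
      have h1 := h.f6 (j := i) (z := i + c) (by omega) (by omega)
      rw [show i + (e + 1) + c = i + c + (e + 1) by ring, ← h1, ih i (by omega) (by omega)]
      simp
  have h0 : R 0 c = 0 := by
    have ht := h.tR (a + c) (by omega)
    have h2 : ∀ u ∈ Finset.range a, (if a ≤ u + (a + c) then R u (u + (a + c) - a) else 0) =
        if (u + c < a + e ∧ (e + 1) ∣ u) then R 0 c else 0 := by
      intro u _
      rw [if_pos (by omega), show u + (a + c) - a = u + c by omega]
      by_cases hu : u + c < a + e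
      · rw [key u hu]
        simp [hu]
      · rw [h.sR _ _ (Or.inr (by omega)), if_neg (by tauto)]
    rw [Finset.sum_congr rfl h2, ← Finset.sum_filter, Finset.sum_const, nsmul_eq_mul] at ht
    rcases mul_eq_zero.mp ht with h3 | h3
    · exfalso
      rw [Nat.cast_eq_zero, Finset.card_eq_zero] at h3
      have : (0 : ℕ) ∈ (Finset.range a).filter (fun u => u + c < a + e ∧ (e + 1) ∣ u) := by
        simp only [Finset.mem_filter, Finset.mem_range]
        exact ⟨by omega, by omega, dvd_zero _⟩
      rw [h3] at this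
      simp at this
    · exact h3
  by_cases hj : j + c < a + e
  · rw [key j hj, h0]; simp
  · exact h.sR _ _ (Or.inr (by omega))

/-- Upper diagonals of `P`. -/
theorem pU (h : Sys a e P Q R) (c u : ℕ) : P u (u + c) = 0 := by
  have ha := h.ha
  have key : ∀ u, u < a → P u (u + c) = P 0 c := by
    intro u
    induction u with
    | zero => intro _; simp
    | succ u ih =>
      intro hu
      have h1 := ih (by omega)
      by_cases hx : u + c < a + e
      · have h2 := h.uw (u + 1) (u + c) hu hx
        rw [if_pos (by omega), show u + 1 - 1 = u by omega] at h2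
        have h3 : Q (u + 1) (u + c + a) = 0 := by
          by_cases h4 : u + 1 ≤ e
          · exact h.f1 (by omega) h4 _
          · exact h.sQ _ _ (Or.inr (by omega))
        rw [h3] at h2
        rw [show u + 1 + c = u + c + 1 by ring]
        linear_combination h1 - h2
      · rw [h.sP (u + 1) _ (Or.inr (by omega)), ← h1, h.sP u _ (Or.inr (by omega))]
  have h0 : P 0 c = 0 := by
    have ht := h.tP (a + c) (by omega)
    have h2 : ∀ u ∈ Finset.range a, (if a ≤ u + (a + c) then P u (u + (a + c) - a) else 0) =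
        P 0 c := by
      intro u hu
      rw [if_pos (by omega), show u + (a + c) - a = u + c by omega,
        key u (Finset.mem_range.mp hu)]
    rw [Finset.sum_congr rfl h2, Finset.sum_const, nsmul_eq_mul, Finset.card_range] at ht
    rcases mul_eq_zero.mp ht with h3 | h3
    · exfalso
      rw [Nat.cast_eq_zero] at h3
      omega
    · exact h3
  by_cases hu : u < a
  · rw [key u hu, h0]
  · exact h.sP _ _ (Or.inl (by omega))

/-- Lower diagonals of `P`. -/
theorem pL (h : Sys a e P Q R) {c : ℕ} (hc : 1 ≤ c) (x : ℕ) : P (x + c) x = 0 := by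
  have ha := h.ha
  by_cases hca : a ≤ c
  · exact h.sP _ _ (Or.inl (by omega))
  have key : ∀ x, x + c < a → P (x + c) x = P c 0 := by
    intro x
    induction x with
    | zero => intro _; simp
    | succ x ih =>
      intro hx
      have h1 := ih (by omega)
      have h2 := h.uw (x + c + 1) x (by omega) (by omega)
      rw [if_pos (by omega), show x + c + 1 - 1 = x + c by omega] at h2
      have h3 : Q (x + c + 1) (x + a) = 0 := by
        by_cases h4 : x + c + 1 ≤ e
        · exact h.f1 (by omega) h4 _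
        · obtain ⟨j, hj⟩ : ∃ j, x + c + 1 = j + (e + 1) := ⟨x + c - e, by omega⟩
          rw [hj, h.f2 (by omega)]
          obtain ⟨c', hc'⟩ : ∃ c', x + a = j + c' := ⟨x + a - j, by omega⟩
          rw [hc', h.lemB (by omega)]
          simp
      rw [h3] at h2
      rw [show x + 1 + c = x + c + 1 by ring]
      linear_combination h1 - h2
  have h0 : P c 0 = 0 := by
    have ht := h.tP (a - c) (by omega)
    have h2 : ∀ u ∈ Finset.range a, (if a ≤ u + (a - c) then P u (u + (a - c) - a) else 0) =
        if c ≤ u then P c 0 else 0 := by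
      intro u hu
      have hu' := Finset.mem_range.mp hu
      by_cases hcu : c ≤ u
      · rw [if_pos (by omega), if_pos hcu]
        obtain ⟨x, rfl⟩ : ∃ x, u = x + c := ⟨u - c, by omega⟩
        rw [show x + c + (a - c) - a = x by omega, key x hu']
      · rw [if_neg (by omega), if_neg hcu]
    rw [Finset.sum_congr rfl h2, ← Finset.sum_filter, Finset.sum_const, nsmul_eq_mul] at ht
    rcases mul_eq_zero.mp ht with h3 | h3
    · exfalso
      rw [Nat.cast_eq_zero, Finset.card_eq_zero] at h3
      have : c ∈ (Finset.range a).filter (fun u => c ≤ u) := by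
        simp only [Finset.mem_filter, Finset.mem_range]
        exact ⟨by omega, le_rfl⟩
      rw [h3] at this
      simp at this
    · exact h3
  by_cases hx : x + c < a
  · rw [key x hx, h0]
  · exact h.sP _ _ (Or.inl (by omega))

theorem P0 (h : Sys a e P Q R) (u x : ℕ) : P u x = 0 := by
  rcases le_or_gt u x with hux | hux
  · obtain ⟨c, rfl⟩ : ∃ c, x = u + c := ⟨x - u, by omega⟩
    exact h.pU c u
  · obtain ⟨c, rfl⟩ : ∃ c, u = x + c := ⟨u - x, by omega⟩
    exact h.pL (by omega) x

/-- The low diagonals of `R` vanish. -/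
theorem lemC (h : Sys a e P Q R) {s j y : ℕ} (hy : y + s = j + e) : R j y = 0 := by
  have ha := h.ha
  by_cases hja : a ≤ j
  · exact h.sR _ _ (Or.inl hja)
  by_cases hs : a + e ≤ s
  · omega
  -- induction on `i = a - 1 - j`
  have key : ∀ i j y, i + j + 1 = a → y + s = j + e →
      R j y = if (e + 1) ∣ i then R (a - 1) (a - 1 + e - s) else 0 := by
    intro i
    induction i using Nat.strong_induction_on with
    | _ i ih =>
      intro j y hij hy
      by_cases hi0 : i = 0
      · subst hi0
        rw [if_pos (dvd_zero _)]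
        congr 1 <;> omega
      by_cases hie : i ≤ e
      · rw [h.f2' (by omega) (by omega), if_neg]
        intro hd
        have := Nat.le_of_dvd (by omega) hd
        omega
      obtain ⟨i', rfl⟩ : ∃ i', i = i' + (e + 1) := ⟨i - (e + 1), by omega⟩
      rw [h.f6 (j := j) (z := y) (by omega) (by omega),
        ih i' (by omega) (j + (e + 1)) (y + (e + 1)) (by omega) (by omega)]
      simp
  have h0 : R (a - 1) (a - 1 + e - s) = 0 := by
    have ht := h.tR (a + e - s) (by omega)
    have h2 : ∀ u ∈ Finset.range a,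
        (if a ≤ u + (a + e - s) then R u (u + (a + e - s) - a) else 0) =
        if (s ≤ u + e ∧ (e + 1) ∣ (a - 1 - u)) then R (a - 1) (a - 1 + e - s) else 0 := by
      intro u hu
      have hu' := Finset.mem_range.mp hu
      by_cases hsu : s ≤ u + e
      · rw [if_pos (by omega), key (a - 1 - u) u (u + (a + e - s) - a) (by omega) (by omega)]
        simp [hsu]
      · rw [if_neg (by omega), if_neg (by tauto)]
    rw [Finset.sum_congr rfl h2, ← Finset.sum_filter, Finset.sum_const, nsmul_eq_mul] at ht
    rcases mul_eq_zero.mp ht with h3 | h3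
    · exfalso
      rw [Nat.cast_eq_zero, Finset.card_eq_zero] at h3
      have : a - 1 ∈ (Finset.range a).filter
          (fun u => s ≤ u + e ∧ (e + 1) ∣ (a - 1 - u)) := by
        simp only [Finset.mem_filter, Finset.mem_range]
        exact ⟨by omega, by omega, by simp⟩
      rw [h3] at this
      simp at this
    · exact h3
  rw [key (a - 1 - j) j y (by omega) hy, h0]
  simp

theorem R0 (h : Sys a e P Q R) (j y : ℕ) : R j y = 0 := by
  rcases le_or_gt y (j + e) with hy | hy
  · exact h.lemC (s := j + e - y) (by omega)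
  · obtain ⟨c, rfl⟩ : ∃ c, y = j + c := ⟨y - j, by omega⟩
    exact h.lemB (by omega) j

theorem Q0 (h : Sys a e P Q R) (u x : ℕ) : Q u x = 0 := by
  have ha := h.ha
  by_cases hu : a ≤ u
  · exact h.sQ _ _ (Or.inl hu)
  by_cases h1 : x + 2 ≤ a
  · rw [h.f4 h1, h.R0]; simp
  by_cases h2 : x = a - 1
  · rw [h2, h.f5, h.P0]; simp
  obtain ⟨y, rfl⟩ : ∃ y, x = y + a := ⟨x - a, by omega⟩
  by_cases hy : y < a + e
  · have := h.uw u y (by omega) hy
    rw [h.P0, h.P0] at this
    have h3 : Q u (y + a) = 0 := by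
      split_ifs at this <;> linear_combination - this
    exact h3
  · exact h.sQ _ _ (Or.inr (by omega))

end Sys

end Pool.Agent.Lib.Q5dc
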