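import Mathlib

/-! The algebra `k[s]/s^(a+b)` with the basis `(s/(1+s))^i` (`i < a`), `(1+s) s^j` (`j < b`). -/

namespace Pool.Agent.Lib.Q5dc

open Polynomial

variable {k : Type*} [Field k]

/-- the polynomials `X^i (1+X)^(a-1-i)`, `i < a`, are independent -/
theorem indep_poly (a : ℕ) (g : ℕ → k)
    (h : ∑ i ∈ Finset.range a, C (g i) * (X ^ i * (1 + X) ^ (a - 1 - i)) = (0 : k[X])) :
    ∀ i < a, g i = 0 := by
  intro i
  induction i using Nat.strong_induction_on with
  | _ i ih =>
    intro hi
    have h1 := congrArg (fun p => p.coeff i) h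
    simp only [finsetSum_coeff, coeff_zero] at h1
    rw [Finset.sum_eq_single i] at h1
    · rw [coeff_C_mul, coeff_X_pow_mul', if_pos le_rfl, Nat.sub_self] at h1
      have h2 : ((1 + X : k[X]) ^ (a - 1 - i)).coeff 0 = 1 := by
        rw [coeff_zero_eq_eval_zero]
        simp
      rw [h2, mul_one] at h1
      exact h1
    · intro j hj hne
      rcases Nat.lt_or_gt_of_ne hne with hlt | hgt
      · rw [ih j hlt (Finset.mem_range.mp hj), C_0, zero_mul, coeff_zero]
      · rw [coeff_C_mul, coeff_X_pow_mul', if_neg (by omega), mul_zero]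
    · intro hn
      exact absurd (Finset.mem_range.mpr hi) hn

theorem indep_both (a b : ℕ) (ha : 1 ≤ a) (g h : ℕ → k)
    (hd : (X : k[X]) ^ (a + b) ∣ ∑ i ∈ Finset.range a, C (g i) * (X ^ i * (1 + X) ^ (a - 1 - i)) +
      (1 + X) ^ a * ∑ j ∈ Finset.range b, C (h j) * X ^ j) :
    (∀ i < a, g i = 0) ∧ (∀ j < b, h j = 0) := by
  set P := ∑ i ∈ Finset.range a, C (g i) * (X ^ i * (1 + X) ^ (a - 1 - i) : k[X])
  set S := ∑ j ∈ Finset.range b, C (h j) * (X : k[X]) ^ j
  have hdeg1 : (1 + X : k[X]).degree = 1 := by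
    rw [add_comm]
    exact degree_X_add_C (1 : k)
  have hP : P.degree < a := by
    refine lt_of_le_of_lt (degree_sum_le _ _) ?_
    rw [Finset.sup_lt_iff (by
      rw [bot_lt_iff_ne_bot]
      exact WithBot.natCast_ne_bot a)]
    intro i hi
    rw [Finset.mem_range] at hi
    refine lt_of_le_of_lt ((degree_mul_le _ _).trans (add_le_add_left degree_C_le _)) ?_
    rw [zero_add]
    rw [degree_mul, degree_X_pow, degree_pow, hdeg1]
    have : ((i : WithBot ℕ) + (a - 1 - i) • (1 : WithBot ℕ)) = ((i + (a - 1 - i) : ℕ) : WithBot ℕ) := by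
      simp
    rw [this]
    exact_mod_cast (by omega : i + (a - 1 - i) < a)
  have hS : S.degree < b := by
    refine lt_of_le_of_lt (degree_sum_le _ _) ?_
    rw [Finset.sup_lt_iff (by
      rw [bot_lt_iff_ne_bot]
      exact WithBot.natCast_ne_bot b)]
    intro j hj
    rw [Finset.mem_range] at hj
    refine lt_of_le_of_lt (degree_C_mul_X_pow_le _ _) ?_
    exact_mod_cast hj
  have hzero : P + (1 + X) ^ a * S = 0 := by
    refine eq_zero_of_dvd_of_degree_lt hd ?_
    rw [degree_X_pow]
    refine lt_of_le_of_lt (degree_add_le _ _) (max_lt ?_ ?_)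
    · refine lt_of_lt_of_le hP ?_
      exact_mod_cast (by omega : a ≤ a + b)
    · rw [degree_mul, degree_pow, hdeg1]
      by_cases hS0 : S = 0
      · rw [hS0, degree_zero]
        simp only [WithBot.add_bot]
        rw [bot_lt_iff_ne_bot]
        exact WithBot.natCast_ne_bot _
      · rw [degree_eq_natDegree hS0] at hS ⊢
        have h1 : S.natDegree < b := by exact_mod_cast hS
        have : (a • (1 : WithBot ℕ) + (S.natDegree : WithBot ℕ)) =
            ((a + S.natDegree : ℕ) : WithBot ℕ) := by simp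
        rw [this]
        exact_mod_cast (by omega : a + S.natDegree < a + b)
  have hS0 : S = 0 := by
    by_contra hne
    have h1 : P = -((1 + X) ^ a * S) := by linear_combination hzero
    rw [h1, degree_neg, degree_mul, degree_pow, hdeg1, degree_eq_natDegree hne] at hP
    have : (a • (1 : WithBot ℕ) + (S.natDegree : WithBot ℕ)) =
        ((a + S.natDegree : ℕ) : WithBot ℕ) := by simp
    rw [this] at hP
    have h2 : a + S.natDegree < a := by exact_mod_cast hP
    omega
  have hP0 : P = 0 := by
    rw [hS0, mul_zero, add_zero] at hzero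
    exact hzero
  refine ⟨indep_poly a g hP0, ?_⟩
  intro j hj
  have h1 := congrArg (fun p => p.coeff j) hS0
  simp only [S, finsetSum_coeff, coeff_zero, coeff_C_mul_X_pow] at h1
  rw [Finset.sum_eq_single j] at h1
  · simpa using h1
  · intro i _ hne
    rw [if_neg (Ne.symm hne)]
  · intro hn
    exact absurd (Finset.mem_range.mpr hj) hn

end Pool.Agent.Lib.Q5dc
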