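import Pool.Agent.Lib.Q5dc.Nod

/-! Two commuting matrices, polynomials in one regular nilpotent matrix, adapted to a
filtration whose graded pieces are two curvilinear modules along two coordinate axes. -/

namespace Pool.Agent.Lib.Q5dc

open Polynomial

variable {k : Type*} [Field k]

namespace Nod2Aux

variable (k) (a b : ℕ)

/-- the algebra -/
abbrev AA := AdjoinRoot (X ^ (a + b) : k[X])

/-- the nilpotent generator -/
noncomputable def ss : AA k a b := AdjoinRoot.root _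

theorem ss_pow : ss k a b ^ (a + b) = 0 := by
  rw [ss, ← AdjoinRoot.mk_X, ← map_pow, AdjoinRoot.mk_eq_zero]

theorem ss_pow_ne (h : 1 ≤ a + b) : ss k a b ^ (a + b - 1) ≠ 0 := by
  rw [ss, ← AdjoinRoot.mk_X, ← map_pow, Ne, AdjoinRoot.mk_eq_zero]
  intro hd
  have h1 := natDegree_le_of_dvd hd (pow_ne_zero _ X_ne_zero)
  rw [natDegree_X_pow, natDegree_X_pow] at h1
  omega

theorem exists_inv : ∃ g : k[X], (1 + ss k a b) * AdjoinRoot.mk (X ^ (a + b)) g = 1 := by
  have h1 : IsUnit (1 + ss k a b) := IsNilpotent.isUnit_one_add ⟨a + b, ss_pow k a b⟩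
  obtain ⟨u, hu⟩ := h1
  obtain ⟨g, hg⟩ := AdjoinRoot.mk_surjective (g := (X ^ (a + b) : k[X])) (↑u⁻¹ : AA k a b)
  exact ⟨g, by rw [hg, ← hu, Units.mul_inv]⟩

/-- the inverse of `1 + s` -/
noncomputable def gg : k[X] := (exists_inv k a b).choose

theorem gg_spec : (1 + ss k a b) * AdjoinRoot.mk (X ^ (a + b)) (gg k a b) = 1 :=
  (exists_inv k a b).choose_spec

/-- `s / (1 + s)` -/
noncomputable def xx : AA k a b := AdjoinRoot.mk _ (X * gg k a b)

theorem xx_mul : xx k a b * (1 + ss k a b) = ss k a b := by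
  have h := gg_spec k a b
  rw [xx, map_mul, AdjoinRoot.mk_X]
  change ss k a b * _ * _ = _
  linear_combination ss k a b * h

theorem pow_lem {R : Type*} [CommRing R] (x u s : R) (h : x * u = s) (i m : ℕ) :
    u ^ (i + m) * x ^ i = s ^ i * u ^ m := by
  rw [pow_add, ← h, mul_pow]
  ring

/-- the family -/
noncomputable def vv : Fin a ⊕ Fin b → AA k a b
  | Sum.inl i => xx k a b ^ (i : ℕ)
  | Sum.inr j => (1 + ss k a b) * ss k a b ^ (j : ℕ)

theorem vv_indep (ha : 1 ≤ a) : LinearIndependent k (vv k a b) := by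
  rw [Fintype.linearIndependent_iff]
  intro c hc
  rw [Fintype.sum_sum_type] at hc
  simp only [vv] at hc
  let g : ℕ → k := fun i => if h : i < a then c (Sum.inl ⟨i, h⟩) else 0
  let h : ℕ → k := fun j => if h : j < b then c (Sum.inr ⟨j, h⟩) else 0
  have hpow : ∀ i < a, (1 + ss k a b) ^ (a - 1) * xx k a b ^ i =
      ss k a b ^ i * (1 + ss k a b) ^ (a - 1 - i) := by
    intro i hi
    have h1 := pow_lem (xx k a b) (1 + ss k a b) (ss k a b) (xx_mul k a b) i (a - 1 - i)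
    rwa [show i + (a - 1 - i) = a - 1 by omega] at h1
  have key : AdjoinRoot.mk (X ^ (a + b) : k[X])
      (∑ i ∈ Finset.range a, C (g i) * (X ^ i * (1 + X) ^ (a - 1 - i)) +
      (1 + X) ^ a * ∑ j ∈ Finset.range b, C (h j) * X ^ j) = 0 := by
    have h1 := congrArg (fun z => (1 + ss k a b) ^ (a - 1) * z) hc
    simp only [mul_zero] at h1
    rw [← h1, map_add, map_sum, map_mul, map_sum, mul_add]
    congr 1
    · rw [Finset.mul_sum, ← Fin.sum_univ_eq_sum_range
        (fun i => AdjoinRoot.mk (X ^ (a + b) : k[X]) (C (g i) * (X ^ i * (1 + X) ^ (a - 1 - i)))) a]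
      refine Finset.sum_congr rfl fun i _ => ?_
      have h2 : g i = c (Sum.inl i) := by
        simp only [g, dif_pos i.2]
      rw [h2, map_mul, map_mul, map_pow, map_pow, map_add, map_one, AdjoinRoot.mk_X,
        AdjoinRoot.mk_C, mul_smul_comm, hpow i i.2, Algebra.smul_def]
      rfl
    · rw [← Fin.sum_univ_eq_sum_range
        (fun j => AdjoinRoot.mk (X ^ (a + b) : k[X]) (C (h j) * X ^ j)) b, Finset.mul_sum,
        Finset.mul_sum]
      refine Finset.sum_congr rfl fun j _ => ?_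
      have h2 : h j = c (Sum.inr j) := by
        simp only [h, dif_pos j.2]
      have h3 : (1 + ss k a b) ^ a = (1 + ss k a b) ^ (a - 1) * (1 + ss k a b) := by
        rw [← pow_succ, Nat.sub_add_cancel ha]
      rw [h2, map_mul, map_pow, map_pow, map_add, map_one, AdjoinRoot.mk_X,
        AdjoinRoot.mk_C, mul_smul_comm, Algebra.smul_def]
      change (1 + ss k a b) ^ a * (_ * ss k a b ^ (j : ℕ)) = _
      rw [h3]
      change _ = AdjoinRoot.of _ _ * _
      ring
  rw [AdjoinRoot.mk_eq_zero] at key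
  obtain ⟨h1, h2⟩ := indep_both a b ha g h key
  rintro (i | j)
  · have := h1 i i.2
    simpa only [g, dif_pos i.2] using this
  · have := h2 j j.2
    simpa only [h, dif_pos j.2] using this

theorem card_eq : Fintype.card (Fin a ⊕ Fin b) = Module.finrank k (AA k a b) := by
  have hm : (X ^ (a + b) : k[X]).Monic := monic_X_pow _
  rw [(AdjoinRoot.powerBasis' hm).finrank]
  simp [AdjoinRoot.powerBasis']

instance fd : Module.Finite k (AA k a b) := (monic_X_pow (R := k) (a + b)).finite_adjoinRoot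

/-- the basis -/
noncomputable def BB (ha : 1 ≤ a) : Module.Basis (Fin a ⊕ Fin b) k (AA k a b) :=
  haveI : Nonempty (Fin a ⊕ Fin b) := ⟨Sum.inl ⟨0, ha⟩⟩
  basisOfLinearIndependentOfCardEqFinrank (vv_indep k a b ha) (card_eq k a b)

theorem BB_apply (ha : 1 ≤ a) (c : Fin a ⊕ Fin b) : BB k a b ha c = vv k a b c := by
  have : Nonempty (Fin a ⊕ Fin b) := ⟨Sum.inl ⟨0, ha⟩⟩
  rw [BB, coe_basisOfLinearIndependentOfCardEqFinrank]

variable {a b}

theorem vv_inl_zero (ha : 1 ≤ a) : vv k a b (Sum.inl ⟨0, ha⟩) = 1 := by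
  simp [vv]

/-- `s ^ (j + 1)` is a combination of `1` and of the `F_i`, `i ≤ j` -/
theorem mem1 (ha : 1 ≤ a) (j : ℕ) (hj : j < b) :
    ss k a b ^ (j + 1) ∈ Submodule.span k (vv k a b ''
      {c | c = Sum.inl ⟨0, ha⟩ ∨ ∃ j' : Fin b, (j' : ℕ) ≤ j ∧ c = Sum.inr j'}) := by
  induction j with
  | zero =>
    have h1 : ss k a b ^ (0 + 1) = vv k a b (Sum.inr ⟨0, hj⟩) - vv k a b (Sum.inl ⟨0, ha⟩) := by
      simp [vv]
    rw [h1]
    exact Submodule.sub_mem _ (Submodule.subset_span ⟨_, Or.inr ⟨_, le_rfl, rfl⟩, rfl⟩)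
      (Submodule.subset_span ⟨_, Or.inl rfl, rfl⟩)
  | succ j ih =>
    have h1 : ss k a b ^ (j + 1 + 1) = vv k a b (Sum.inr ⟨j + 1, hj⟩) - ss k a b ^ (j + 1) := by
      simp only [vv]
      ring
    rw [h1]
    refine Submodule.sub_mem _ (Submodule.subset_span ⟨_, Or.inr ⟨_, le_rfl, rfl⟩, rfl⟩) ?_
    refine Submodule.span_mono (Set.image_mono ?_) (ih (by omega))
    rintro c (h | ⟨j', h, h'⟩)
    · exact Or.inl h
    · exact Or.inr ⟨j', by omega, h'⟩

/-- `s x ^ i` is a combination of the `E_m`, `m ≤ i`, and of `F_0` -/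
theorem mem2 (ha : 1 ≤ a) (hb : 1 ≤ b) (i : ℕ) (hi : i < a) :
    ss k a b * xx k a b ^ i ∈ Submodule.span k (vv k a b ''
      {c | (∃ i' : Fin a, (i' : ℕ) ≤ i ∧ c = Sum.inl i') ∨ c = Sum.inr ⟨0, hb⟩}) := by
  induction i with
  | zero =>
    have h1 : ss k a b * xx k a b ^ 0 =
        vv k a b (Sum.inr ⟨0, hb⟩) - vv k a b (Sum.inl ⟨0, ha⟩) := by
      simp [vv]
    rw [h1]
    exact Submodule.sub_mem _ (Submodule.subset_span ⟨_, Or.inr rfl, rfl⟩)
      (Submodule.subset_span ⟨_, Or.inl ⟨_, le_rfl, rfl⟩, rfl⟩)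
  | succ i ih =>
    have h0 := xx_mul k a b
    have h1 : ss k a b * xx k a b ^ (i + 1) =
        ss k a b * xx k a b ^ i - vv k a b (Sum.inl ⟨i + 1, hi⟩) := by
      simp only [vv]
      rw [pow_succ]
      linear_combination (xx k a b ^ i) * h0
    rw [h1]
    refine Submodule.sub_mem _ ?_
      (Submodule.subset_span ⟨_, Or.inl ⟨⟨i + 1, hi⟩, le_rfl, rfl⟩, rfl⟩)
    refine Submodule.span_mono (Set.image_mono ?_) (ih (by omega))
    rintro c (⟨j', h, h'⟩ | h)
    · exact Or.inl ⟨j', by omega, h'⟩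
    · exact Or.inr h

theorem repr_ne (ha : 1 ≤ a) {v : AA k a b} {S : Set (Fin a ⊕ Fin b)}
    (hv : v ∈ Submodule.span k (vv k a b '' S)) {c : Fin a ⊕ Fin b}
    (hc : (BB k a b ha).repr v c ≠ 0) : c ∈ S := by
  have h1 : (vv k a b : Fin a ⊕ Fin b → AA k a b) = BB k a b ha := by
    funext c
    rw [BB_apply]
  rw [h1, Module.Basis.mem_span_image] at hv
  exact hv (Finsupp.mem_support_iff.mpr hc)

end Nod2Aux

open Nod2Aux

/-- the model -/
theorem exists_model {a b : ℕ} (ha : 1 ≤ a) (hb : 1 ≤ b) :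
    ∃ (N : Matrix (Fin a ⊕ Fin b) (Fin a ⊕ Fin b) k) (px : k[X]),
      N ^ (a + b) = 0 ∧ N ^ (a + b - 1) ≠ 0 ∧ px.coeff 0 = 0 ∧
      (∀ (i : ℕ) (h : i + 1 < a) c', (aeval N px) c' (Sum.inl ⟨i, by omega⟩) =
        if c' = Sum.inl ⟨i + 1, h⟩ then 1 else 0) ∧
      (∀ (j : Fin b) c', (aeval N px) c' (Sum.inr j) ≠ 0 →
        c' = Sum.inl ⟨0, ha⟩ ∨ ∃ j' : Fin b, (j' : ℕ) ≤ j ∧ c' = Sum.inr j') ∧
      (∀ (j : ℕ) (h : j + 1 < b) c', N c' (Sum.inr ⟨j, by omega⟩) =
        if c' = Sum.inr ⟨j + 1, h⟩ then 1 else 0) ∧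
      (∀ (i : Fin a) c', N c' (Sum.inl i) ≠ 0 →
        (∃ i' : Fin a, (i' : ℕ) ≤ i ∧ c' = Sum.inl i') ∨ c' = Sum.inr ⟨0, hb⟩) := by
  set B := BB k a b ha with hB
  have hpx : aeval (Algebra.leftMulMatrix B (ss k a b)) (X * gg k a b) =
      Algebra.leftMulMatrix B (xx k a b) := by
    rw [aeval_algHom_apply, ss, AdjoinRoot.aeval_eq]
    rfl
  refine ⟨Algebra.leftMulMatrix B (ss k a b), X * gg k a b, ?_, ?_, ?_, ?_, ?_, ?_, ?_⟩
  · rw [← map_pow, ss_pow, map_zero]
  · rw [← map_pow]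
    intro h
    exact ss_pow_ne k a b (by omega)
      (Algebra.leftMulMatrix_injective B (by rw [h, map_zero]))
  · simp
  · intro i h c'
    rw [hpx, Algebra.leftMulMatrix_eq_repr_mul]
    have h1 : xx k a b * B (Sum.inl ⟨i, by omega⟩) = B (Sum.inl ⟨i + 1, h⟩) := by
      rw [hB, BB_apply, BB_apply]
      simp only [vv]
      ring
    rw [h1, Module.Basis.repr_self, Finsupp.single_apply]
    exact if_congr eq_comm rfl rfl
  · intro j c' hc
    rw [hpx, Algebra.leftMulMatrix_eq_repr_mul] at hc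
    have h1 : xx k a b * B (Sum.inr j) = ss k a b ^ ((j : ℕ) + 1) := by
      rw [hB, BB_apply]
      simp only [vv]
      have h0 := xx_mul k a b
      linear_combination (ss k a b ^ (j : ℕ)) * h0
    rw [h1] at hc
    exact repr_ne k ha (mem1 k ha j j.2) hc
  · intro j h c'
    rw [Algebra.leftMulMatrix_eq_repr_mul]
    have h1 : ss k a b * B (Sum.inr ⟨j, by omega⟩) = B (Sum.inr ⟨j + 1, h⟩) := by
      rw [hB, BB_apply, BB_apply]
      simp only [vv]
      ring
    rw [h1, Module.Basis.repr_self, Finsupp.single_apply]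
    exact if_congr eq_comm rfl rfl
  · intro i c' hc
    rw [Algebra.leftMulMatrix_eq_repr_mul] at hc
    have h1 : ss k a b * B (Sum.inl i) = ss k a b * xx k a b ^ (i : ℕ) := by
      rw [hB, BB_apply]
      simp only [vv]
    rw [h1] at hc
    exact repr_ne k ha (mem2 k ha hb i i.2) hc

end Pool.Agent.Lib.Q5dc
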