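import Pool.Agent.Lib.Q5dc.Gen

/-! Points of the punctual Quot scheme: triples with generating vectors. -/

namespace Pool.Agent.Lib.Q5dc

open MvPolynomial Matrix

variable {k : Type*} [Field k]

/-- The vectors `v j` and `T i (v j)`. -/
def wv {d r : ℕ} (T : Fin 3 → Matrix (Fin d) (Fin d) k) (v : Fin r → Fin d → k) :
    Fin r ⊕ (Fin 3 × Fin r) → Fin d → k :=
  Sum.elim v (fun z => T z.1 *ᵥ v z.2)

/-- Generation of the module by the vectors. -/
def Gens {d r : ℕ} (T : Fin 3 → Matrix (Fin d) (Fin d) k) (v : Fin r → Fin d → k) : Prop :=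
  ∀ W : Submodule k (Fin d → k), (∀ j, v j ∈ W) → (∀ i, ∀ w ∈ W, T i *ᵥ w ∈ W) → W = ⊤

theorem span_wv {d r : ℕ} (T : Fin 3 → Matrix (Fin d) (Fin d) k) (v : Fin r → Fin d → k)
    (hT : ∀ i j, T i * T j = 0) (hg : Gens T v) :
    Submodule.span k (Set.range (wv T v)) = ⊤ := by
  refine hg _ (fun j => Submodule.subset_span ⟨Sum.inl j, rfl⟩) fun i w hw => ?_
  induction hw using Submodule.span_induction with
  | mem x hx =>
    obtain ⟨z, rfl⟩ := hx
    rcases z with j | ⟨i', j⟩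
    · exact Submodule.subset_span ⟨Sum.inr (i, j), rfl⟩
    · have : T i *ᵥ wv T v (Sum.inr (i', j)) = 0 := by
        simp only [wv, Sum.elim_inr]
        rw [Matrix.mulVec_mulVec, hT, Matrix.zero_mulVec]
      rw [this]
      exact Submodule.zero_mem _
  | zero =>
    rw [Matrix.mulVec_zero]
    exact Submodule.zero_mem _
  | add x y _ _ hx hy =>
    rw [Matrix.mulVec_add]
    exact Submodule.add_mem _ hx hy
  | smul c x _ hx =>
    rw [Matrix.mulVec_smul]
    exact Submodule.smul_mem _ _ hx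

theorem gens_of_span {d r : ℕ} (T : Fin 3 → Matrix (Fin d) (Fin d) k) (v : Fin r → Fin d → k)
    (h : Submodule.span k (Set.range (wv T v)) = ⊤) : Gens T v := by
  intro W h1 h2
  rw [eq_top_iff, ← h, Submodule.span_le]
  rintro _ ⟨z, rfl⟩
  rcases z with j | ⟨i, j⟩
  · exact h1 j
  · exact h2 i _ (h1 j)

/-- Coordinates of a triple with vectors. -/
def cv {d r : ℕ} (T : Fin 3 → Matrix (Fin d) (Fin d) k) (v : Fin r → Fin d → k) :
    (Fin 3 × Fin d × Fin d) ⊕ (Fin r × Fin d) → k :=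
  Sum.elim (fun z => T z.1 z.2.1 z.2.2) (fun z => v z.1 z.2)

theorem main_pts [CharZero k] {d r : ℕ} (hd : 1 ≤ d)
    (T : Fin 3 → Matrix (Fin d) (Fin d) k) (v : Fin r → Fin d → k)
    (hT : ∀ i j, T i * T j = 0) (hg : Gens T v)
    (F : MvPolynomial ((Fin 3 × Fin d × Fin d) ⊕ (Fin r × Fin d)) k)
    (hF : ∀ T' : Fin 3 → Matrix (Fin d) (Fin d) k, Curv' T' → Gens T' v →
      eval (cv T' v) F = 0) : eval (cv T v) F = 0 := by
  obtain ⟨σ, hσ⟩ := exists_sel (wv T v) (span_wv T v hT hg)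
  let Fv : MvPolynomial (Fin 3 × Fin d × Fin d) k :=
    aeval (Sum.elim X (fun z => C (v z.1 z.2))) F
  have hFv : ∀ T' : Fin 3 → Matrix (Fin d) (Fin d) k,
      eval (co T') Fv = eval (cv T' v) F := by
    intro T'
    have h1 : ((aeval (co T') : MvPolynomial (Fin 3 × Fin d × Fin d) k →ₐ[k] k).comp
        (aeval (Sum.elim X (fun z : Fin r × Fin d => C (v z.1 z.2))))) =
        (aeval (cv T' v) :
          MvPolynomial ((Fin 3 × Fin d × Fin d) ⊕ (Fin r × Fin d)) k →ₐ[k] k) := by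
      apply MvPolynomial.algHom_ext
      rintro (z | z)
      · simp [co, cv]
      · simp [cv]
    have h3 := congrArg (fun f => f F) h1
    simp only [AlgHom.comp_apply] at h3
    exact h3
  let Wp : Fin r ⊕ (Fin 3 × Fin r) → Fin d → MvPolynomial (Fin 3 × Fin d × Fin d) k :=
    Sum.elim (fun j x => C (v j x)) (fun z x => ∑ y, X (z.1, x, y) * C (v z.2 y))
  let D : MvPolynomial (Fin 3 × Fin d × Fin d) k := (Matrix.of fun c => Wp (σ c)).det
  have hW : ∀ (T' : Fin 3 → Matrix (Fin d) (Fin d) k) z x,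
      eval (co T') (Wp z x) = wv T' v z x := by
    intro T' z x
    rcases z with j | ⟨i, j⟩
    · simp [Wp, wv]
    · simp [Wp, wv, Matrix.mulVec, dotProduct, co]
  have hD : ∀ T' : Fin 3 → Matrix (Fin d) (Fin d) k,
      eval (co T') D = (Matrix.of fun c => wv T' v (σ c)).det := by
    intro T'
    rw [RingHom.map_det]
    congr 1
    ext c x
    exact hW T' (σ c) x
  have hG : ∀ T' : Fin 3 → Matrix (Fin d) (Fin d) k, Curv' T' →
      eval (co T') (Fv * D) = 0 := by
    intro T' hT'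
    rw [map_mul]
    by_cases h0 : eval (co T') D = 0
    · rw [h0, mul_zero]
    · rw [hD] at h0
      rw [hFv, hF T' hT' (gens_of_span _ _ (span_of_sel _ _ h0)), zero_mul]
  have : Nonempty (Fin d) := ⟨⟨0, hd⟩⟩
  have h1 := cl_two_step T hT (Fv * D) (vanish_of_strict (Fv * D) hG)
  rw [map_mul, hD] at h1
  rcases mul_eq_zero.mp h1 with h2 | h2
  · rw [← hFv]
    exact h2
  · exact absurd h2 hσ

end Pool.Agent.Lib.Q5dc
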