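import Pool.Agent.Lib.Q5dc.Fun

/-! Every block triple is in the closure; reduction of a two-step triple to block form. -/

namespace Pool.Agent.Lib.Q5dc

open Matrix

variable {k : Type*} [Field k]

theorem SS_le [CharZero k] {a e : ℕ} (ha : 1 ≤ a)
    (A : Fin 3 → Matrix (Fin (a + e)) (Fin a) k) : SS A := by
  refine all_SS (J k a (a + e)) (J_nil _ _) (J_reg _ _ (by omega))
    (fun i => Polynomial.X ^ al a e i) ?_ ?_ A
  · intro i
    rw [Polynomial.coeff_X_pow, if_neg]
    fin_cases i <;> simp [al] <;> omega
  · intro v
    obtain ⟨z, hz⟩ := span_all ha v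
    refine ⟨z.1, z.2.1, z.2.2.1, z.2.2.2, fun i => ?_⟩
    rw [← hz]
    simp only [dirMap, LinearMap.coe_mk, AddHom.coe_mk, map_pow, Polynomial.aeval_X]

theorem Curv.zero [CharZero k] {a b : ℕ} (h : 1 ≤ a + b) :
    Curv (fun _ : Fin 3 => (0 : Matrix (Fin a ⊕ Fin b) (Fin a ⊕ Fin b) k)) := by
  refine ⟨J k a b, by simpa using J_nil a b, by simpa using J_reg a b h, fun i => ⟨0, by simp, ?_⟩⟩
  simp

theorem SS_all [CharZero k] {a b : ℕ} (hab : 1 ≤ a + b)
    (A : Fin 3 → Matrix (Fin b) (Fin a) k) : SS A := by
  rcases Nat.eq_zero_or_pos a with ha | ha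
  · subst ha
    have h1 : blk A = fun _ => 0 := by
      funext i
      ext x y
      rcases x with x | x <;> rcases y with y | y
      · exact x.elim0
      · exact x.elim0
      · exact y.elim0
      · simp [blk]
    rw [SS, h1]
    exact Cl.of_curv (Curv.zero hab)
  · rcases Nat.eq_zero_or_pos b with hb | hb
    · subst hb
      have h1 : blk A = fun _ => 0 := by
        funext i
        ext x y
        rcases x with x | x <;> rcases y with y | y
        · simp [blk]
        · exact y.elim0
        · exact x.elim0
        · exact x.elim0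
      rw [SS, h1]
      exact Cl.of_curv (Curv.zero hab)
    · by_cases hle : a ≤ b
      · obtain ⟨e, rfl⟩ := Nat.exists_eq_add_of_le hle
        exact SS_le ha A
      · obtain ⟨e, rfl⟩ := Nat.exists_eq_add_of_le (show b ≤ a by omega)
        have h1 : SS (fun i => (A i).transpose) := SS_le hb _
        have h2 := Cl.mapEquiv (Matrix.reindexAlgEquiv k k (Equiv.sumComm (Fin b) (Fin (b + e))))
          (by simp [add_comm]) h1.transpose
        have h3 : (fun i => (Matrix.reindexAlgEquiv k k
            (Equiv.sumComm (Fin b) (Fin (b + e)))) (blk (fun i => (A i).transpose) i).transpose)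
            = blk A := by
          funext i
          ext x y
          rcases x with x | x <;> rcases y with y | y <;>
            simp [blk]
        rw [h3] at h2
        exact h2

/-- Every triple with all products zero is in the closure of the curvilinear triples. -/
theorem cl_two_step [CharZero k] {n : Type*} [Fintype n] [DecidableEq n] [Nonempty n]
    (T : Fin 3 → Matrix n n k) (hT : ∀ i j, T i * T j = 0) : Cl T := by
  classical
  let K : Submodule k (n → k) := ⨅ i, LinearMap.ker (Matrix.toLin' (T i))
  obtain ⟨U, hU⟩ := Submodule.exists_isCompl K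
  let B : Module.Basis (Fin (Module.finrank k U) ⊕ Fin (Module.finrank k K)) k (n → k) :=
    ((Module.finBasis k U).prod (Module.finBasis k K)).map
      (Submodule.prodEquivOfIsCompl U K hU.symm)
  have hcard : Fintype.card n =
      Fintype.card (Fin (Module.finrank k U) ⊕ Fin (Module.finrank k K)) := by
    rw [← Module.finrank_eq_card_basis B, Module.finrank_fintype_fun_eq_card]
  have hpos : 1 ≤ Module.finrank k U + Module.finrank k K := by
    have h1 : 0 < Fintype.card n := Fintype.card_pos
    rw [hcard, Fintype.card_sum, Fintype.card_fin, Fintype.card_fin] at h1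
    omega
  let φ : Matrix n n k ≃ₐ[k] Matrix (Fin (Module.finrank k U) ⊕ Fin (Module.finrank k K))
      (Fin (Module.finrank k U) ⊕ Fin (Module.finrank k K)) k :=
    (Matrix.toLinAlgEquiv').trans (LinearMap.toMatrixAlgEquiv B)
  have hφ : ∀ (M : Matrix n n k) x y, φ M x y = B.repr (Matrix.toLin' M (B y)) x := by
    intro M x y
    simp only [φ, AlgEquiv.trans_apply]
    rw [LinearMap.toMatrixAlgEquiv_apply]
    rfl
  have hK : ∀ i x, x ∈ K → Matrix.toLin' (T i) x = 0 := by
    intro i x hx
    exact (Submodule.mem_iInf _).mp hx i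
  have hR : ∀ i x, Matrix.toLin' (T i) x ∈ K := by
    intro i x
    refine (Submodule.mem_iInf _).mpr fun j => ?_
    rw [LinearMap.mem_ker, Matrix.toLin'_apply, Matrix.toLin'_apply, Matrix.mulVec_mulVec, hT,
      Matrix.zero_mulVec]
  have hB : ∀ u, B (Sum.inr u) ∈ K := by
    intro u
    simp [B]
  have hrep : ∀ x, x ∈ K → ∀ u, B.repr x (Sum.inl u) = 0 := by
    intro x hx u
    simp only [B, Module.Basis.map_repr, LinearEquiv.trans_apply, Module.Basis.prod_repr_inl]
    rw [(Submodule.prodEquivOfIsCompl_symm_apply_fst_eq_zero U K hU.symm).mpr hx]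
    simp
  have hblk : (fun i => φ (T i)) = blk (fun i => (φ (T i)).toBlocks₂₁) := by
    funext i
    ext x y
    rcases y with y | y
    · rcases x with x | x
      · rw [hφ, hrep _ (hR _ _)]
        simp [blk]
      · simp [blk, Matrix.toBlocks₂₁]
    · rw [hφ, hK i _ (hB y)]
      rcases x with x | x <;> simp [blk]
  have h1 : Cl (fun i => φ (T i)) := by
    rw [hblk]
    exact SS_all hpos _
  have h2 := Cl.mapEquiv φ.symm hcard.symm h1
  simpa using h2

end Pool.Agent.Lib.Q5dc
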