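import Pool.Agent.Lib.Q5dc.Blk
import Pool.Agent.Lib.Q5dc.Lin

/-! The special point: `J` is the shift on `Fin a ⊕ Fin b`, `b = a + e`, and the polynomials
are `X`, `X^a`, `X^(b+1)`. The directions span everything. -/

namespace Pool.Agent.Lib.Q5dc

open Matrix

variable {k : Type*} [Field k]

/-- The position of an index. -/
def pos {a b : ℕ} : Fin a ⊕ Fin b → ℕ
  | Sum.inl u => u
  | Sum.inr x => a + x

theorem pos_lt {a b : ℕ} (z : Fin a ⊕ Fin b) : pos z < a + b := by
  rcases z with u | x
  · simp only [pos]; omega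
  · simp only [pos]; omega

theorem pos_inj {a b : ℕ} {z w : Fin a ⊕ Fin b} (h : pos z = pos w) : z = w := by
  rcases z with u | x <;> rcases w with v | y <;> simp only [pos] at h
  · congr 1; exact Fin.ext h
  · omega
  · omega
  · congr 1; exact Fin.ext (by omega)

theorem pos_surj {a b : ℕ} {c : ℕ} (hc : c < a + b) : ∃ z : Fin a ⊕ Fin b, pos z = c := by
  by_cases h : c < a
  · exact ⟨Sum.inl ⟨c, h⟩, rfl⟩
  · exact ⟨Sum.inr ⟨c - a, by omega⟩, by simp only [pos]; omega⟩

/-- The shift. -/
def J (k : Type*) [Field k] (a b : ℕ) : Matrix (Fin a ⊕ Fin b) (Fin a ⊕ Fin b) k :=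
  Matrix.of fun z w => if pos z = pos w + 1 then 1 else 0

theorem J_pow (a b m : ℕ) (z w : Fin a ⊕ Fin b) :
    (J k a b ^ m) z w = if pos z = pos w + m then 1 else 0 := by
  induction m generalizing w with
  | zero =>
    rw [pow_zero, Matrix.one_apply]
    by_cases h : z = w
    · simp [h]
    · rw [if_neg h, if_neg]
      intro h2
      exact h (pos_inj (by simpa using h2))
  | succ m ih =>
    rw [pow_succ, Matrix.mul_apply]
    simp only [ih]
    by_cases h : pos w + 1 < a + b
    · obtain ⟨y, hy⟩ := pos_surj h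
      rw [Finset.sum_eq_single y]
      · simp only [J, Matrix.of_apply, hy, if_true, mul_one]
        by_cases h2 : pos z = pos w + 1 + m
        · rw [if_pos h2, if_pos (by omega)]
        · rw [if_neg h2, if_neg (by omega)]
      · intro y' _ hne
        have : J k a b y' w = 0 := by
          simp only [J, Matrix.of_apply]
          rw [if_neg]
          intro h3
          exact hne (pos_inj (by omega))
        rw [this, mul_zero]
      · intro h3; exact absurd (Finset.mem_univ y) h3
    · rw [Finset.sum_eq_zero, if_neg]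
      · have := pos_lt z
        omega
      · intro y _
        have : J k a b y w = 0 := by
          simp only [J, Matrix.of_apply]
          rw [if_neg]
          have := pos_lt y
          omega
        rw [this, mul_zero]

theorem J_nil (a b : ℕ) : J k a b ^ (a + b) = 0 := by
  ext z w
  rw [J_pow, if_neg]
  · rfl
  · have := pos_lt z
    omega

theorem J_reg (a b : ℕ) (h : 1 ≤ a + b) : J k a b ^ (a + b - 1) ≠ 0 := by
  intro h0
  obtain ⟨z, hz⟩ := pos_surj (a := a) (b := b) (c := a + b - 1) (by omega)
  obtain ⟨w, hw⟩ := pos_surj (a := a) (b := b) (c := 0) (by omega)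
  have := congrFun (congrFun h0 z) w
  rw [J_pow, if_pos (by omega)] at this
  simp at this

theorem sumU {a : ℕ} (Y : ℕ → k) (hY : ∀ u, a ≤ u → Y u = 0) (c α : ℕ) :
    ∑ u : Fin a, (if c = (u : ℕ) + α then Y u else 0) = if α ≤ c then Y (c - α) else 0 := by
  by_cases h : α ≤ c
  · rw [if_pos h]
    by_cases h2 : c - α < a
    · rw [Finset.sum_eq_single (⟨c - α, h2⟩ : Fin a)]
      · rw [if_pos (by simp; omega)]
      · intro u _ hne
        rw [if_neg]
        intro h3
        exact hne (Fin.ext (by simp; omega))
      · intro h3; exact absurd (Finset.mem_univ _) h3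
    · rw [hY _ (by omega)]
      apply Finset.sum_eq_zero
      intro u _
      rw [if_neg]
      omega
  · rw [if_neg h]
    apply Finset.sum_eq_zero
    intro u _
    rw [if_neg]
    omega

theorem sumX {b : ℕ} (Y : ℕ → k) (hY : ∀ x, b ≤ x → Y x = 0) (c a : ℕ) :
    ∑ x : Fin b, (if a + (x : ℕ) = c then Y x else 0) = if a ≤ c then Y (c - a) else 0 := by
  rw [← sumU Y hY c a]
  refine Finset.sum_congr rfl fun x _ => ?_
  by_cases h : a + (x : ℕ) = c
  · rw [if_pos h, if_pos (by omega)]
  · rw [if_neg h, if_neg (by omega)]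

end Pool.Agent.Lib.Q5dc
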