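import Pool.Agent.Lib.Q5dc.Nod2
import Pool.Agent.Lib.Q5dc.Defs

/-! The closure of the curvilinear triples is closed under direct sums. -/

namespace Pool.Agent.Lib.Q5dc

open Matrix

variable {k : Type*} [Field k] {n : Type*} [Fintype n] [DecidableEq n]
  {m : Type*} [Fintype m] [DecidableEq m]

/-- A matrix over `k[t]`: conjugate of `t ^ β M` by the diagonal matrix `t ^ w`. -/
noncomputable def pmat (M : Matrix n n k) (w : n → ℕ) (β : ℕ) : Matrix n n (Polynomial k) :=
  Matrix.of fun c' c => Polynomial.C (M c' c) * Polynomial.X ^ (w c + β - w c')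

/-- Evaluation of matrices over `k[t]`. -/
noncomputable def evm (s : k) : Matrix n n (Polynomial k) →ₐ[k] Matrix n n k :=
  (Polynomial.aeval s : Polynomial k →ₐ[k] k).mapMatrix

theorem evm_apply (s : k) (M : Matrix n n (Polynomial k)) (x y : n) :
    evm s M x y = (M x y).eval s := by
  simp [evm, Polynomial.coe_aeval_eq_eval]

theorem diag_mul_diag (w : n → ℕ) {s : k} (hs : s ≠ 0) :
    Matrix.diagonal (fun c => (s⁻¹) ^ w c) * Matrix.diagonal (fun c => s ^ w c) = 1 := by
  rw [Matrix.diagonal_mul_diagonal, ← Matrix.diagonal_one]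
  congr 1
  funext c
  rw [← mul_pow, inv_mul_cancel₀ hs, one_pow]

theorem diag_mul_diag' (w : n → ℕ) {s : k} (hs : s ≠ 0) :
    Matrix.diagonal (fun c => s ^ w c) * Matrix.diagonal (fun c => (s⁻¹) ^ w c) = 1 := by
  rw [Matrix.diagonal_mul_diagonal, ← Matrix.diagonal_one]
  congr 1
  funext c
  rw [← mul_pow, mul_inv_cancel₀ hs, one_pow]

/-- Conjugation by the diagonal matrix. -/
def dh (w : n → ℕ) {s : k} (hs : s ≠ 0) : Matrix n n k →ₐ[k] Matrix n n k :=
  conjHom _ _ (diag_mul_diag w hs) (diag_mul_diag' w hs)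

theorem evm_pmat (M : Matrix n n k) (w : n → ℕ) (β : ℕ)
    (hM : ∀ c' c, M c' c ≠ 0 → w c' ≤ w c + β) {s : k} (hs : s ≠ 0) :
    evm s (pmat M w β) = dh w hs (s ^ β • M) := by
  ext c' c
  rw [evm_apply, dh, conjHom_apply, Matrix.mul_diagonal, Matrix.diagonal_mul]
  simp only [pmat, Matrix.of_apply, Polynomial.eval_mul, Polynomial.eval_C, Polynomial.eval_pow,
    Polynomial.eval_X, Matrix.smul_apply, smul_eq_mul]
  by_cases h : M c' c = 0
  · rw [h]; ring
  · have h1 := hM c' c h
    have h2 : s ^ (w c + β) = s ^ (w c + β - w c') * s ^ w c' := by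
      rw [← pow_add]
      congr 1
      omega
    have h3 : (s⁻¹) ^ w c' * s ^ w c' = 1 := by
      rw [← mul_pow, inv_mul_cancel₀ hs, one_pow]
    rw [pow_add] at h2
    calc M c' c * s ^ (w c + β - w c') =
        M c' c * (s ^ (w c + β - w c') * s ^ w c') * (s⁻¹) ^ w c' := by
          linear_combination (-(M c' c * s ^ (w c + β - w c'))) * h3
      _ = (s⁻¹) ^ w c' * (s ^ β * M c' c) * s ^ w c := by
          rw [← h2]; ring

theorem evm_pmat_zero (M : Matrix n n k) (w : n → ℕ) (β : ℕ) :
    evm 0 (pmat M w β) = Matrix.of fun c' c => if w c + β ≤ w c' then M c' c else 0 := by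
  ext c' c
  rw [evm_apply]
  simp only [pmat, Matrix.of_apply, Polynomial.eval_mul, Polynomial.eval_C, Polynomial.eval_pow,
    Polynomial.eval_X]
  by_cases h : w c + β ≤ w c'
  · rw [if_pos h, Nat.sub_eq_zero_of_le h, pow_zero, mul_one]
  · rw [if_neg h, zero_pow (by omega), mul_zero]

/-- Limits of curvilinear triples built from two polynomials in a regular nilpotent matrix. -/
theorem cl_gr [Infinite k] (N : Matrix n n k) (px : Polynomial k)
    (hN1 : N ^ Fintype.card n = 0) (hN2 : N ^ (Fintype.card n - 1) ≠ 0) (hpx : px.coeff 0 = 0)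
    (w : n → ℕ) (β γ : ℕ)
    (h1 : ∀ c' c, (Polynomial.aeval N px) c' c ≠ 0 → w c' ≤ w c + β)
    (h2 : ∀ c' c, N c' c ≠ 0 → w c' ≤ w c + γ)
    (p q : Fin 3 → Polynomial k) (hp : ∀ i, (p i).coeff 0 = 0) (hq : ∀ i, (q i).coeff 0 = 0) :
    Cl (fun i => Polynomial.aeval (Matrix.of fun c' c =>
        if w c + β ≤ w c' then (Polynomial.aeval N px) c' c else 0) (p i) +
      Polynomial.aeval (Matrix.of fun c' c => if w c + γ ≤ w c' then N c' c else 0) (q i)) := by
  let TT : Fin 3 → Matrix n n (Polynomial k) := fun i =>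
    Polynomial.aeval (pmat (Polynomial.aeval N px) w β) (p i) +
      Polynomial.aeval (pmat N w γ) (q i)
  have hev : ∀ (s : k) (i : Fin 3), (Matrix.of fun x y => (TT i x y).eval s) =
      Polynomial.aeval (evm s (pmat (Polynomial.aeval N px) w β)) (p i) +
      Polynomial.aeval (evm s (pmat N w γ)) (q i) := by
    intro s i
    have h3 : (Matrix.of fun x y => (TT i x y).eval s) = evm s (TT i) := by
      ext x y
      rw [evm_apply]
      rfl
    rw [h3]
    simp only [TT, map_add]
    rw [Polynomial.aeval_algHom_apply, Polynomial.aeval_algHom_apply]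
  have h3 := Cl.curve (k := k) (fun i x y => TT i x y) ?_ 0
  · have h4 : (fun i => Matrix.of fun x y => (TT i x y).eval 0) = fun i =>
        Polynomial.aeval (Matrix.of fun c' c =>
        if w c + β ≤ w c' then (Polynomial.aeval N px) c' c else 0) (p i) +
      Polynomial.aeval (Matrix.of fun c' c => if w c + γ ≤ w c' then N c' c else 0) (q i) := by
      funext i
      rw [hev, evm_pmat_zero, evm_pmat_zero]
    rw [h4] at h3
    exact h3
  · refine Set.Infinite.mono ?_ (Set.Finite.infinite_compl (Set.finite_singleton (0 : k)))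
    intro s hs
    have hs0 : s ≠ 0 := hs
    change Cl (fun i => Matrix.of fun x y => (TT i x y).eval s)
    refine Cl.of_curv ⟨dh w hs0 N, ?_, ?_, fun i => ?_⟩
    · rw [← map_pow, hN1, map_zero]
    · rw [← map_pow]
      intro h4
      exact hN2 (conjHom_injective _ _ (diag_mul_diag w hs0) (diag_mul_diag' w hs0)
        (by rw [map_zero]; exact h4))
    · refine ⟨(p i).comp (Polynomial.C (s ^ β) * px) + (q i).comp (Polynomial.C (s ^ γ) *
        Polynomial.X), ?_, ?_⟩
      · rw [Polynomial.coeff_add, Polynomial.coeff_zero_eq_eval_zero,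
          Polynomial.coeff_zero_eq_eval_zero, Polynomial.eval_comp, Polynomial.eval_comp,
          Polynomial.eval_mul, Polynomial.eval_mul, ← Polynomial.coeff_zero_eq_eval_zero px, hpx,
          Polynomial.eval_X, mul_zero, mul_zero, ← Polynomial.coeff_zero_eq_eval_zero,
          ← Polynomial.coeff_zero_eq_eval_zero, hp, hq, add_zero]
      · change (Matrix.of fun x y => (TT i x y).eval s) = _
        rw [hev, evm_pmat _ _ _ h1 hs0, evm_pmat _ _ _ h2 hs0, Polynomial.aeval_algHom_apply,
          Polynomial.aeval_algHom_apply, Polynomial.aeval_algHom_apply, map_add,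
          Polynomial.aeval_comp, Polynomial.aeval_comp, map_add, map_mul, map_mul,
          Polynomial.aeval_X, Polynomial.aeval_C, Polynomial.aeval_C, Algebra.smul_def,
          Algebra.smul_def]

/-- The shift of size `a`. -/
def nsh (k : Type*) [Field k] (a : ℕ) : Matrix (Fin a) (Fin a) k :=
  Matrix.of fun x y => if (x : ℕ) = y + 1 then 1 else 0

/-- The weights. -/
def wt (a b : ℕ) : Fin a ⊕ Fin b → ℕ
  | Sum.inl i => b * i
  | Sum.inr j => a * (j + 1) - 1

theorem gr_left [Infinite k] {a b : ℕ} (ha : 1 ≤ a) (hb : 1 ≤ b)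
    (M : Matrix (Fin a ⊕ Fin b) (Fin a ⊕ Fin b) k)
    (h1 : ∀ (i : ℕ) (h : i + 1 < a) c', M c' (Sum.inl ⟨i, by omega⟩) =
        if c' = Sum.inl ⟨i + 1, h⟩ then 1 else 0)
    (h2 : ∀ (j : Fin b) c', M c' (Sum.inr j) ≠ 0 →
        c' = Sum.inl ⟨0, ha⟩ ∨ ∃ j' : Fin b, (j' : ℕ) ≤ j ∧ c' = Sum.inr j') :
    (∀ c' c, M c' c ≠ 0 → wt a b c' ≤ wt a b c + b) ∧
      (Matrix.of fun c' c => if wt a b c + b ≤ wt a b c' then M c' c else 0) =
        Matrix.fromBlocks (nsh k a) 0 0 0 := by
  have hF : ∀ j : Fin b, wt a b (Sum.inr j) + 1 ≤ a * b := by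
    intro j
    have h3 : a * ((j : ℕ) + 1) ≤ a * b := Nat.mul_le_mul_left a (by omega)
    have h4 : 1 ≤ a * ((j : ℕ) + 1) := Nat.mul_pos ha (by omega)
    simp only [wt]
    omega
  have hE : ∀ i : Fin a, wt a b (Sum.inl i) + b ≤ a * b := by
    intro i
    have h3 : b * ((i : ℕ) + 1) ≤ b * a := Nat.mul_le_mul_left b (by omega)
    simp only [wt]
    rw [mul_add, mul_one] at h3
    rw [mul_comm a b]
    exact h3
  have hlast : ∀ (i : Fin a), ¬ ((i : ℕ) + 1 < a) → wt a b (Sum.inl i) + b = a * b := by
    intro i hi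
    have h3 : (i : ℕ) + 1 = a := by omega
    simp only [wt]
    conv_rhs => rw [← h3]
    ring
  have hmono : ∀ j' j : Fin b, (j' : ℕ) ≤ j → wt a b (Sum.inr j') ≤ wt a b (Sum.inr j) := by
    intro j' j h
    have h3 : a * ((j' : ℕ) + 1) ≤ a * ((j : ℕ) + 1) := Nat.mul_le_mul_left a (by omega)
    simp only [wt]
    omega
  refine ⟨?_, ?_⟩
  · rintro c' (i | j) hne
    · by_cases hi : (i : ℕ) + 1 < a
      · have h3 := h1 i hi c'
        by_cases hc : c' = Sum.inl ⟨i + 1, hi⟩
        · rw [hc]
          simp only [wt]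
          rw [mul_add, mul_one]
        · rw [if_neg hc] at h3
          exact absurd h3 hne
      · rw [hlast i hi]
        rcases c' with i' | j'
        · have := hE i'
          omega
        · have := hF j'
          omega
    · rcases h2 j c' hne with hc | ⟨j', hj, hc⟩
      · rw [hc]
        simp [wt]
      · rw [hc]
        have := hmono j' j hj
        omega
  · ext c' c
    rw [Matrix.of_apply]
    rcases c with i | j
    · by_cases hi : (i : ℕ) + 1 < a
      · have h3 := h1 i hi c'
        change M c' (Sum.inl i) = _ at h3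
        rw [h3]
        rcases c' with i' | j'
        · rw [Matrix.fromBlocks_apply₁₁]
          simp only [nsh, Matrix.of_apply]
          by_cases hc : (i' : ℕ) = i + 1
          · have hc' : (Sum.inl i' : Fin a ⊕ Fin b) = Sum.inl ⟨i + 1, hi⟩ := by
              congr 1
              exact Fin.ext hc
            rw [if_pos hc, if_pos hc', if_pos]
            simp only [wt]
            rw [hc, mul_add, mul_one]
          · have hc' : ¬ (Sum.inl i' : Fin a ⊕ Fin b) = Sum.inl ⟨i + 1, hi⟩ := by
              intro h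
              exact hc (congrArg Fin.val (Sum.inl.inj h))
            rw [if_neg hc, if_neg hc']
            simp
        · rw [Matrix.fromBlocks_apply₂₁]
          simp
      · have h4 : ¬ (wt a b (Sum.inl i) + b ≤ wt a b c') := by
          rw [hlast i hi]
          rcases c' with i' | j'
          · have := hE i'
            omega
          · have := hF j'
            omega
        rw [if_neg h4]
        rcases c' with i' | j'
        · rw [Matrix.fromBlocks_apply₁₁]
          simp only [nsh, Matrix.of_apply]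
          rw [if_neg]
          omega
        · rw [Matrix.fromBlocks_apply₂₁]
          rfl
    · have h5 : (Matrix.fromBlocks (nsh k a) 0 0 (0 : Matrix (Fin b) (Fin b) k)) c' (Sum.inr j) = 0 := by
        rcases c' with i' | j'
        · rw [Matrix.fromBlocks_apply₁₂]
          rfl
        · rw [Matrix.fromBlocks_apply₂₂]
          rfl
      rw [h5]
      by_cases h6 : M c' (Sum.inr j) = 0
      · rw [h6]
        simp
      · rw [if_neg]
        rcases h2 j c' h6 with hc | ⟨j', hj, hc⟩
        · rw [hc]
          simp only [wt, mul_zero]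
          omega
        · rw [hc]
          have := hmono j' j hj
          omega

theorem gr_right [Infinite k] {a b : ℕ} (ha : 1 ≤ a) (hb : 1 ≤ b)
    (M : Matrix (Fin a ⊕ Fin b) (Fin a ⊕ Fin b) k)
    (h1 : ∀ (j : ℕ) (h : j + 1 < b) c', M c' (Sum.inr ⟨j, by omega⟩) =
        if c' = Sum.inr ⟨j + 1, h⟩ then 1 else 0)
    (h2 : ∀ (i : Fin a) c', M c' (Sum.inl i) ≠ 0 →
        (∃ i' : Fin a, (i' : ℕ) ≤ i ∧ c' = Sum.inl i') ∨ c' = Sum.inr ⟨0, hb⟩) :
    (∀ c' c, M c' c ≠ 0 → wt a b c' ≤ wt a b c + a) ∧
      (Matrix.of fun c' c => if wt a b c + a ≤ wt a b c' then M c' c else 0) =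
        Matrix.fromBlocks 0 0 0 (nsh k b) := by
  have hF : ∀ j : Fin b, wt a b (Sum.inr j) + 1 ≤ a * b := by
    intro j
    have h3 : a * ((j : ℕ) + 1) ≤ a * b := Nat.mul_le_mul_left a (by omega)
    have h4 : 1 ≤ a * ((j : ℕ) + 1) := Nat.mul_pos ha (by omega)
    simp only [wt]
    omega
  have hE : ∀ i : Fin a, wt a b (Sum.inl i) + b ≤ a * b := by
    intro i
    have h3 : b * ((i : ℕ) + 1) ≤ b * a := Nat.mul_le_mul_left b (by omega)
    simp only [wt]
    rw [mul_add, mul_one] at h3
    rw [mul_comm a b]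
    exact h3
  have hw : ∀ j : Fin b, wt a b (Sum.inr j) + 1 = a * ((j : ℕ) + 1) := by
    intro j
    have h4 : 1 ≤ a * ((j : ℕ) + 1) := Nat.mul_pos ha (by omega)
    simp only [wt]
    omega
  have hlast : ∀ (j : Fin b), ¬ ((j : ℕ) + 1 < b) → wt a b (Sum.inr j) + 1 = a * b := by
    intro j hj
    rw [hw j, show (j : ℕ) + 1 = b by omega]
  refine ⟨?_, ?_⟩
  · rintro c' (i | j) hne
    · rcases h2 i c' hne with ⟨i', hi, hc⟩ | hc
      · rw [hc]
        simp only [wt]
        have : b * (i' : ℕ) ≤ b * i := Nat.mul_le_mul_left b hi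
        omega
      · rw [hc]
        have := hw ⟨0, hb⟩
        simp only [wt] at this ⊢
        simp only [zero_add, mul_one] at this ⊢
        omega
    · by_cases hj : (j : ℕ) + 1 < b
      · have h3 := h1 j hj c'
        by_cases hc : c' = Sum.inr ⟨j + 1, hj⟩
        · rw [hc]
          have e1 := hw ⟨j + 1, hj⟩
          have e2 := hw j
          have e3 : a * ((j : ℕ) + 1 + 1) = a * ((j : ℕ) + 1) + a := by ring
          simp only at e1
          omega
        · rw [if_neg hc] at h3
          exact absurd h3 hne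
      · have := hlast j hj
        rcases c' with i' | j'
        · have := hE i'
          omega
        · have := hF j'
          omega
  · ext c' c
    rw [Matrix.of_apply]
    rcases c with i | j
    · have h5 : (Matrix.fromBlocks (0 : Matrix (Fin a) (Fin a) k) 0 0 (nsh k b)) c' (Sum.inl i)
          = 0 := by
        rcases c' with i' | j'
        · rw [Matrix.fromBlocks_apply₁₁]
          rfl
        · rw [Matrix.fromBlocks_apply₂₁]
          rfl
      rw [h5]
      by_cases h6 : M c' (Sum.inl i) = 0
      · rw [h6]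
        simp
      · rw [if_neg]
        rcases h2 i c' h6 with ⟨i', hi, hc⟩ | hc
        · rw [hc]
          simp only [wt]
          have : b * (i' : ℕ) ≤ b * i := Nat.mul_le_mul_left b hi
          omega
        · rw [hc]
          simp only [wt, zero_add, mul_one]
          omega
    · by_cases hj : (j : ℕ) + 1 < b
      · have h3 := h1 j hj c'
        change M c' (Sum.inr j) = _ at h3
        rw [h3]
        rcases c' with i' | j'
        · rw [Matrix.fromBlocks_apply₁₂]
          simp
        · rw [Matrix.fromBlocks_apply₂₂]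
          simp only [nsh, Matrix.of_apply]
          by_cases hc : (j' : ℕ) = j + 1
          · have hc' : (Sum.inr j' : Fin a ⊕ Fin b) = Sum.inr ⟨j + 1, hj⟩ := by
              congr 1
              exact Fin.ext hc
            rw [if_pos hc, if_pos hc', if_pos]
            have e1 := hw j'
            have e2 := hw j
            rw [hc] at e1
            have e3 : a * ((j : ℕ) + 1 + 1) = a * ((j : ℕ) + 1) + a := by ring
            omega
          · have hc' : ¬ (Sum.inr j' : Fin a ⊕ Fin b) = Sum.inr ⟨j + 1, hj⟩ := by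
              intro h
              exact hc (congrArg Fin.val (Sum.inr.inj h))
            rw [if_neg hc, if_neg hc']
            simp
      · have h4 : ¬ (wt a b (Sum.inr j) + a ≤ wt a b c') := by
          have := hlast j hj
          rcases c' with i' | j'
          · have := hE i'
            omega
          · have := hF j'
            omega
        rw [if_neg h4]
        rcases c' with i' | j'
        · rw [Matrix.fromBlocks_apply₁₂]
          rfl
        · rw [Matrix.fromBlocks_apply₂₂]
          simp only [nsh, Matrix.of_apply]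
          rw [if_neg]
          omega

theorem cl_axes [Infinite k] {a b : ℕ} (ha : 1 ≤ a) (hb : 1 ≤ b) (p q : Fin 3 → Polynomial k)
    (hp : ∀ i, (p i).coeff 0 = 0) (hq : ∀ i, (q i).coeff 0 = 0) :
    Cl (fun i => Polynomial.aeval (Matrix.fromBlocks (nsh k a) 0 0
        (0 : Matrix (Fin b) (Fin b) k)) (p i) +
      Polynomial.aeval (Matrix.fromBlocks (0 : Matrix (Fin a) (Fin a) k) 0 0 (nsh k b)) (q i)) := by
  obtain ⟨N, px, hN1, hN2, hpx, e1, e2, e3, e4⟩ := exists_model (k := k) ha hb
  obtain ⟨g1, g2⟩ := gr_left ha hb _ e1 e2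
  obtain ⟨g3, g4⟩ := gr_right ha hb _ e3 e4
  have h := cl_gr N px (by simpa using hN1) (by simpa using hN2) hpx (wt a b) b a g1 g3 p q hp hq
  rw [g2, g4] at h
  exact h

end Pool.Agent.Lib.Q5dc
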